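import Pool.Agent.MP_c42954_lc.Scan.Defs

set_option autoImplicit false

/-!
# Height reduction: definitions

The trees here are `BinaryTree ℕ` whose labels are GAPS (`s` = the cut between the keys `s` and
`s + 1`); the empty subtrees are the keys.

* `Sb t T`: `t` is a subtree of `T`.
* `ht s T`: the height of the subtree rooted at `s`; `blk s T`: its list of labels.
* `Cm G G' x s`: `G` and `G'` have the same subtree with root `s`, and it does not contain the key
  `x` (neither `x` nor `x - 1` is a label);  `U n G G' x`: the other gaps of `(0, n)`.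
* `gt T`: the gap tree of a tree `T` of keys.
* `lz L x R`: the lazy tree.  `Kp L x R`: the labels of `R` which are kept.
* `Grp`, `asm`, `ins`, `rep`, `low`: the canonical low tree `low S` of `S`.
-/

namespace Pool.Agent.SplLow

open BinaryTree Pool.Agent.MP_c42954_lc.Scan

/-- `Sb t T`: `t` is a subtree of `T`. -/
inductive Sb (t : BinaryTree ℕ) : BinaryTree ℕ → Prop
  | refl : Sb t t
  | left (a : ℕ) {l : BinaryTree ℕ} (r : BinaryTree ℕ) : Sb t l → Sb t (.node a l r)
  | right (a : ℕ) (l : BinaryTree ℕ) {r : BinaryTree ℕ} : Sb t r → Sb t (.node a l r)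

/-- The height of the subtree rooted at `s` (`0` if `s` is not a label). -/
def ht (s : ℕ) : BinaryTree ℕ → ℕ
  | .nil => 0
  | .node a l r => if s = a then (BinaryTree.node a l r).height else max (ht s l) (ht s r)

/-- The labels of the subtree rooted at `s`. -/
def blk (s : ℕ) : BinaryTree ℕ → List ℕ
  | .nil => []
  | .node a l r => if s = a then inorder (.node a l r) else blk s l ++ blk s r

/-- The key `x` is not in (the interval of) the tree of gaps `t`. -/
def Av (x : ℕ) (t : BinaryTree ℕ) : Prop := x ∉ inorder t ∧ x - 1 ∉ inorder t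

/-- `G` and `G'` have the same subtree with root `s`, and it avoids the key `x`. -/
def Cm (G G' : BinaryTree ℕ) (x s : ℕ) : Prop :=
  ∃ l r, Sb (.node s l r) G ∧ Sb (.node s l r) G' ∧ Av x (.node s l r)

open Classical in
/-- The gaps of `(0, n)` whose subtree changes or contains the key `x`. -/
noncomputable def U (n : ℕ) (G G' : BinaryTree ℕ) (x : ℕ) : Finset ℕ :=
  (Finset.Ioo 0 n).filter (fun s => ¬ Cm G G' x s)

open Classical in
/-- The gaps of `(0, n)` whose subtree in `G` contains the key `x`. -/
noncomputable def Anc (n : ℕ) (G : BinaryTree ℕ) (x : ℕ) : Finset ℕ :=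
  (Finset.Ioo 0 n).filter (fun s => ∃ l r, Sb (.node s l r) G ∧ ¬ Av x (.node s l r))

open Classical in
/-- The number of gaps with different blocks. -/
noncomputable def Psi (n : ℕ) (L R : BinaryTree ℕ) : ℕ :=
  ((Finset.Ioo 0 n).filter (fun s => blk s L ≠ blk s R)).card

/-! ## The gap tree of a tree of keys -/

/-- The right part of the gap tree of `node v A B`; `g` is the gap tree of `B`. -/
def gtR (v : ℕ) : BinaryTree ℕ → BinaryTree ℕ → BinaryTree ℕ
  | .nil, _ => .nil
  | .node _ _ _, g => .node v .nil g

/-- The gap tree of `node v A B`; `g` is the gap tree of `A` and `r` the right part. -/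
def gtL (v : ℕ) : BinaryTree ℕ → BinaryTree ℕ → BinaryTree ℕ → BinaryTree ℕ
  | .nil, _, r => r
  | .node _ _ _, g, r => .node (v - 1) g r

/-- The gap tree of a tree of keys. -/
def gt : BinaryTree ℕ → BinaryTree ℕ
  | .nil => .nil
  | .node v A B => gtL v A (gt A) (gtR v B (gt B))

/-! ## The lazy tree -/

/-- The interval of `R` is the interval of the subtree `S` of `L`, and it avoids `x`. -/
def Hol (L : BinaryTree ℕ) (x : ℕ) (R S : BinaryTree ℕ) : Prop :=
  Sb S L ∧ inorder S = inorder R ∧ Av x R

open Classical in
/-- The lazy tree: `R` with the holes of `L` left as they are. -/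
noncomputable def lz (L : BinaryTree ℕ) (x : ℕ) : BinaryTree ℕ → BinaryTree ℕ
  | .nil => .nil
  | .node a l r =>
    if h : ∃ S, Hol L x (.node a l r) S then Classical.choose h
    else .node a (lz L x l) (lz L x r)

open Classical in
/-- The labels of `R` which are kept in the lazy tree. -/
noncomputable def Kp (L : BinaryTree ℕ) (x : ℕ) : BinaryTree ℕ → Finset ℕ
  | .nil => ∅
  | .node a l r => if ∃ S, Hol L x (.node a l r) S then ∅ else insert a (Kp L x l ∪ Kp L x r)

/-! ## The canonical low tree -/

/-- A group: a section of the heavy path, with everything on its left and on its right. -/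
structure Grp where
  /-- the rank -/
  rank : ℕ
  /-- the left part: a tree followed by a gap -/
  l : Option (BinaryTree ℕ × ℕ)
  /-- the right part: a gap followed by a tree -/
  r : Option (ℕ × BinaryTree ℕ)

/-- A left part in front of a tree. -/
def addL : Option (BinaryTree ℕ × ℕ) → BinaryTree ℕ → BinaryTree ℕ
  | none, t => t
  | some (A, s), t => .node s A t

/-- A right part behind a tree. -/
def addR : Option (ℕ × BinaryTree ℕ) → BinaryTree ℕ → BinaryTree ℕ
  | none, t => t
  | some (s, A), t => .node s t A

/-- Join two left parts (outer, inner). -/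
def jL : Option (BinaryTree ℕ × ℕ) → Option (BinaryTree ℕ × ℕ) → Option (BinaryTree ℕ × ℕ)
  | none, y => y
  | some x, none => some x
  | some (A, s), some (B, s') => some (.node s A B, s')

/-- Join two right parts (outer, inner). -/
def jR : Option (ℕ × BinaryTree ℕ) → Option (ℕ × BinaryTree ℕ) → Option (ℕ × BinaryTree ℕ)
  | none, y => y
  | some x, none => some x
  | some (s, A), some (s', B) => some (s', .node s B A)

/-- The tree of a list of groups. -/
def asm : List Grp → BinaryTree ℕ
  | [] => .nil
  | g :: gs => addL g.l (addR g.r (asm gs))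

/-- Prepend a group of rank `0` (skew-binary carry). -/
def ins (u : Grp) : List Grp → List Grp
  | g1 :: g2 :: gs =>
    if g1.rank = g2.rank then
      ⟨g1.rank + 1, jL u.l (jL g1.l g2.l), jR u.r (jR g1.r g2.r)⟩ :: gs
    else u :: g1 :: g2 :: gs
  | gs => u :: gs

/-- The groups of a tree. -/
def rep : BinaryTree ℕ → List Grp
  | .nil => []
  | .node s A B =>
    if A.numNodes ≤ B.numNodes then ins ⟨0, some (asm (rep A), s), none⟩ (rep B)
    else ins ⟨0, none, some (s, asm (rep B))⟩ (rep A)

/-- The canonical low tree. -/
def low (S : BinaryTree ℕ) : BinaryTree ℕ := asm (rep S)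

/-- The spine gaps of a group. -/
def sp (g : Grp) : Finset ℕ :=
  (match g.l with
    | none => ∅
    | some (_, s) => {s}) ∪
  (match g.r with
    | none => ∅
    | some (s, _) => {s})

/-- The spine gaps of the first two groups. -/
def sp2 : List Grp → Finset ℕ
  | [] => ∅
  | [g] => sp g
  | g1 :: g2 :: _ => sp g1 ∪ sp g2

/-- The exceptional gaps at the root of a tree. -/
def Ex : BinaryTree ℕ → Finset ℕ
  | .nil => ∅
  | .node s A B => insert s (if A.numNodes ≤ B.numNodes then sp2 (rep B) else sp2 (rep A))

/-- The height of the trees of a group. -/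
def gh (g : Grp) : ℕ :=
  max (match g.l with
    | none => 0
    | some (A, _) => A.height)
  (match g.r with
    | none => 0
    | some (_, A) => A.height)

end Pool.Agent.SplLow
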