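import Pool.Agent.SplLow.Sub

set_option autoImplicit false

/-!
# The gap tree of a tree of keys
-/

namespace Pool.Agent.SplLow

open BinaryTree Pool.Agent.MP_c42954_lc.Scan

/-! ## Module LD -/

/-- If a list splits an interval. -/
private theorem LD_split {l r : List ℕ} {v a k : ℕ} (h : l ++ v :: r = List.range' a (k + 1)) :
    l = List.range' a l.length ∧ v = a + l.length ∧ l.length ≤ k ∧
      r = List.range' (v + 1) (k - l.length) := by
  have hlen : l.length + (r.length + 1) = k + 1 := by
    have h1 := congrArg List.length h
    simpa using h1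
  have h2 : List.range' a (k + 1) =
      List.range' a l.length ++ List.range' (a + l.length) (r.length + 1) := by
    rw [← hlen]
    simp
  rw [h2] at h
  obtain ⟨h3, h4⟩ := List.append_inj h (by simp)
  rw [List.range'_succ] at h4
  obtain ⟨h5, h6⟩ := List.cons.inj h4
  refine ⟨h3, h5, by omega, ?_⟩
  rw [h6, h5]
  congr 1
  omega

private theorem LD_R {v k : ℕ} {B : BinaryTree ℕ} (h : inorder B = List.range' (v + 1) k)
    (ih : ∀ j, inorder B = List.range' (v + 1) (j + 1) → inorder (gt B) = List.range' (v + 1) j) :
    inorder (gtR v B (gt B)) = List.range' v k := by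
  cases B with
  | nil =>
    cases k with
    | zero => rfl
    | succ j => simp [inorder, List.range'_succ] at h
  | node b B1 B2 =>
    cases k with
    | zero => simp [inorder] at h
    | succ j =>
      have h1 := ih j h
      change [] ++ v :: inorder (gt (.node b B1 B2)) = _
      rw [h1, List.range'_succ]
      rfl

/-- The labels of the gap tree of a tree with keys `a, .., a + k` are `a, .., a + k - 1`. -/
theorem gt_inorder {T : BinaryTree ℕ} {a k : ℕ} (ha : 0 < a)
    (h : inorder T = List.range' a (k + 1)) : inorder (gt T) = List.range' a k := by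
  induction T generalizing a k with
  | nil => simp [inorder, List.range'_succ] at h
  | node v A B ihA ihB =>
    obtain ⟨h1, h2, h3, h4⟩ := LD_split h
    have h5 := LD_R h4 (fun j hj => ihB (Nat.succ_pos v) hj)
    cases A with
    | nil =>
      change inorder (gtR v B (gt B)) = _
      rw [h5]
      simp only [inorder, List.length_nil, Nat.add_zero, Nat.sub_zero] at h2 ⊢
      rw [h2]
    | node b A1 A2 =>
      set i := (inorder (BinaryTree.node b A1 A2)).length with hi
      have hi0 : 0 < i := by
        rw [hi]
        simp [inorder]
      obtain ⟨j, hj⟩ : ∃ j, i = j + 1 := ⟨i - 1, by omega⟩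
      have h6 := ihA ha (by rw [h1, hj])
      change inorder (gt (.node b A1 A2)) ++ (v - 1) :: inorder (gtR v B (gt B)) = _
      rw [h6, h5]
      have e1 : (v - 1) :: List.range' v (k - i) = List.range' (v - 1) (k - i + 1) := by
        rw [List.range'_succ]
        congr 2
        omega
      rw [e1]
      have e2 : v - 1 = a + j := by omega
      have e3 : k - i + 1 = k - j := by omega
      rw [e2, e3]
      have e4 : List.range' a k = List.range' a (j + (k - j)) := by
        congr 1
        omega
      rw [e4]
      simp

/-! ## Module LE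

`node v A B`: the gaps `v - 1` (if `A` is not empty) and `v` (if `B` is not empty) are at the top;
the labels of `gt A` are `≤ v - 2`, those of `gt B` are `≥ v + 1`.  If `x = v` only these two gaps
contain `x`; if `x < v` only `v - 1` and gaps of `gt A`; if `v < x` only `v - 1`, `v` and gaps of
`gt B`. -/

/-- If a list splits an interval. -/
private theorem LE_split {l r : List ℕ} {v a k : ℕ} (h : l ++ v :: r = List.range' a (k + 1)) :
    l = List.range' a l.length ∧ v = a + l.length ∧ l.length ≤ k ∧
      r = List.range' (v + 1) (k - l.length) := by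
  have hlen : l.length + (r.length + 1) = k + 1 := by
    have h1 := congrArg List.length h
    simpa using h1
  have h2 : List.range' a (k + 1) = List.range' a l.length ++ List.range' (a + l.length) (r.length + 1) := by
    rw [← hlen]
    simp
  rw [h2] at h
  obtain ⟨h3, h4⟩ := List.append_inj h (by simp)
  rw [List.range'_succ] at h4
  obtain ⟨h5, h6⟩ := List.cons.inj h4
  refine ⟨h3, h5, by omega, ?_⟩
  rw [h6, h5]
  congr 1
  omega

/-- The subtrees of a gap tree. -/
private theorem LE_sb {v : ℕ} {A B : BinaryTree ℕ} {s : ℕ} {l r : BinaryTree ℕ}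
    (h : Sb (.node s l r) (gt (.node v A B))) :
    s = v - 1 ∨ s = v ∨ Sb (.node s l r) (gt A) ∨ Sb (.node s l r) (gt B) := by
  cases A with
  | nil =>
    cases B with
    | nil => cases h
    | node b B1 B2 =>
      have h' : Sb (.node s l r) (.node v .nil (gt (.node b B1 B2))) := h
      cases h' with
      | refl => exact Or.inr (Or.inl rfl)
      | left _ _ h1 => cases h1
      | right _ _ h1 => exact Or.inr (Or.inr (Or.inr h1))
  | node a A1 A2 =>
    cases B with
    | nil =>
      have h' : Sb (.node s l r) (.node (v - 1) (gt (.node a A1 A2)) .nil) := h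
      cases h' with
      | refl => exact Or.inl rfl
      | left _ _ h1 => exact Or.inr (Or.inr (Or.inl h1))
      | right _ _ h1 => cases h1
    | node b B1 B2 =>
      have h' : Sb (.node s l r)
        (.node (v - 1) (gt (.node a A1 A2)) (.node v .nil (gt (.node b B1 B2)))) := h
      cases h' with
      | refl => exact Or.inl rfl
      | left _ _ h1 => exact Or.inr (Or.inr (Or.inl h1))
      | right _ _ h1 =>
        cases h1 with
        | refl => exact Or.inr (Or.inl rfl)
        | left _ _ h2 => cases h2
        | right _ _ h2 => exact Or.inr (Or.inr (Or.inr h2))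

/-- The labels of the gap tree of a tree (possibly empty) with the keys `a, .., a + j - 1`. -/
private theorem LE_mem {A : BinaryTree ℕ} {a j s : ℕ} (ha : 0 < a)
    (h : inorder A = List.range' a j) (hs : s ∈ inorder (gt A)) : a ≤ s ∧ s + 1 < a + j := by
  cases j with
  | zero =>
    cases A with
    | nil => simp [gt, inorder] at hs
    | node b B1 B2 => simp [inorder] at h
  | succ j =>
    rw [gt_inorder ha h, List.mem_range'_1] at hs
    omega

theorem anc_gt {n : ℕ} {T : BinaryTree ℕ} {a k x : ℕ} (ha : 0 < a)
    (h : inorder T = List.range' a (k + 1)) (hx : x ∈ inorder T) :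
    (Anc n (gt T) x).card ≤ 2 * (depth x T + 1) := by
  induction T generalizing a k with
  | nil => simp [inorder] at hx
  | node v A B ihA ihB =>
    classical
    have h' : inorder A ++ v :: inorder B = List.range' a (k + 1) := h
    obtain ⟨hA, hv, hk, hB⟩ := LE_split h'
    set j := (inorder A).length with hj
    have hcase : x ∈ inorder A ∨ x = v ∨ x ∈ inorder B := mem_node.1 hx
    have key : ∀ s ∈ Anc n (gt (.node v A B)) x, s = v - 1 ∨ s = v ∨
        (x < v ∧ s ∈ Anc n (gt A) x) ∨ (v < x ∧ s ∈ Anc n (gt B) x) := by
      intro s hs
      unfold Anc at hs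
      rw [Finset.mem_filter] at hs
      obtain ⟨hs0, l, r, hsb, hav⟩ := hs
      rcases LE_sb hsb with h1 | h1 | h1 | h1
      · exact Or.inl h1
      · exact Or.inr (Or.inl h1)
      · right; right; left
        have h2 : ¬ Av x (.node s l r) → x < v := by
          intro hna
          by_contra hxv
          apply hna
          constructor
          · intro hm
            have h3 := LE_mem ha hA (h1.mem hm)
            omega
          · intro hm
            have h3 := LE_mem ha hA (h1.mem hm)
            omega
        refine ⟨h2 hav, ?_⟩
        unfold Anc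
        rw [Finset.mem_filter]
        exact ⟨hs0, l, r, h1, hav⟩
      · right; right; right
        have h2 : ¬ Av x (.node s l r) → v < x := by
          intro hna
          by_contra hxv
          apply hna
          constructor
          · intro hm
            have h3 := LE_mem (by omega) hB (h1.mem hm)
            omega
          · intro hm
            have h3 := LE_mem (by omega) hB (h1.mem hm)
            omega
        refine ⟨h2 hav, ?_⟩
        unfold Anc
        rw [Finset.mem_filter]
        exact ⟨hs0, l, r, h1, hav⟩
    have hxA : x ∈ inorder A → x < v := by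
      intro hm
      rw [hA, List.mem_range'_1] at hm
      omega
    have hxB : x ∈ inorder B → v < x := by
      intro hm
      rw [hB, List.mem_range'_1] at hm
      omega
    rcases hcase with hc | hc | hc
    · have hlt := hxA hc
      have hd : depth x (.node v A B) = depth x A + 1 := by
        simp only [depth]
        rw [if_neg hlt.ne, if_pos hlt]
      rw [hd]
      have hj0 : 0 < j := by
        rw [hj]
        exact List.length_pos_of_mem hc
      obtain ⟨j', hj'⟩ : ∃ j', j = j' + 1 := ⟨j - 1, by omega⟩
      have h1 := ihA ha (by rw [hA, hj']) hc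
      have h2 : Anc n (gt (.node v A B)) x ⊆ {v - 1, v} ∪ Anc n (gt A) x := by
        intro s hs
        rw [Finset.mem_union, Finset.mem_insert, Finset.mem_singleton]
        rcases key s hs with h3 | h3 | h3 | h3
        · exact Or.inl (Or.inl h3)
        · exact Or.inl (Or.inr h3)
        · exact Or.inr h3.2
        · omega
      have h3 := Finset.card_le_card h2
      have h4 := Finset.card_union_le {v - 1, v} (Anc n (gt A) x)
      have h5 : ({v - 1, v} : Finset ℕ).card ≤ 2 := Finset.card_le_two
      omega
    · have h2 : Anc n (gt (.node v A B)) x ⊆ {v - 1, v} := by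
        intro s hs
        rw [Finset.mem_insert, Finset.mem_singleton]
        rcases key s hs with h3 | h3 | h3 | h3
        · exact Or.inl h3
        · exact Or.inr h3
        · omega
        · omega
      have h3 := Finset.card_le_card h2
      have h5 : ({v - 1, v} : Finset ℕ).card ≤ 2 := Finset.card_le_two
      omega
    · have hlt := hxB hc
      have hd : depth x (.node v A B) = depth x B + 1 := by
        simp only [depth]
        rw [if_neg hlt.ne', if_neg (by omega)]
      rw [hd]
      have hk0 : 0 < k - j := by
        have h6 := List.length_pos_of_mem hc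
        rw [hB, List.length_range'] at h6
        exact h6
      obtain ⟨k', hk'⟩ : ∃ k', k - j = k' + 1 := ⟨k - j - 1, by omega⟩
      have h1 := ihB (a := v + 1) (by omega) (by rw [hB, hk']) hc
      have h2 : Anc n (gt (.node v A B)) x ⊆ {v - 1, v} ∪ Anc n (gt B) x := by
        intro s hs
        rw [Finset.mem_union, Finset.mem_insert, Finset.mem_singleton]
        rcases key s hs with h3 | h3 | h3 | h3
        · exact Or.inl (Or.inl h3)
        · exact Or.inl (Or.inr h3)
        · omega
        · exact Or.inr h3.2
      have h3 := Finset.card_le_card h2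
      have h4 := Finset.card_union_le {v - 1, v} (Anc n (gt B) x)
      have h5 : ({v - 1, v} : Finset ℕ).card ≤ 2 := Finset.card_le_two
      omega

/-! ## Module LF

One rotation changes the blocks of at most 4 gaps: `a - 1, a, b - 1, b` for a rotation at the nodes
`a`, `b`.  Induction on `Rot`; for `inLeft` and `inRight` use that a rotation keeps `inorder` and
that both trees are not empty. -/

theorem rot_inorder {T T' : BinaryTree ℕ} (h : Rot T T') : inorder T = inorder T' := by
  induction h with
  | atLeftChild a b A B C => simp [inorder]
  | atRightChild a b A B C => simp [inorder]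
  | inLeft c r _ ih => simp only [inorder]; rw [ih]
  | inRight c l _ ih => simp only [inorder]; rw [ih]

private theorem LF_blk (v : ℕ) (A B : BinaryTree ℕ) (s : ℕ) (h1 : s ≠ v - 1) (h2 : s ≠ v) :
    blk s (gt (.node v A B)) = blk s (gt A) ++ blk s (gt B) := by
  cases A with
  | nil =>
    cases B with
    | nil => simp [gt, gtL, gtR, blk]
    | node b B1 B2 =>
      show blk s (.node v .nil (gt (.node b B1 B2))) = _
      simp [gt, blk, h2]
  | node a A1 A2 =>
    cases B with
    | nil =>
      show blk s (.node (v - 1) (gt (.node a A1 A2)) .nil) = _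
      rw [blk, if_neg h1]
      simp [gt, blk]
    | node b B1 B2 =>
      show blk s (.node (v - 1) (gt (.node a A1 A2)) (.node v .nil (gt (.node b B1 B2)))) = _
      rw [blk, if_neg h1, blk, if_neg h2]
      simp [blk]

theorem rot_blk {T T' : BinaryTree ℕ} (h : Rot T T') {a k : ℕ} (ha : 0 < a)
    (hT : inorder T = List.range' a (k + 1)) :
    ∃ D : Finset ℕ, D.card ≤ 4 ∧ ∀ s, s ∉ D → blk s (gt T) = blk s (gt T') := by
  induction h generalizing a k with
  | atLeftChild x y A B C =>
    refine ⟨{x - 1, x, y - 1, y}, Finset.card_le_four, fun s hs => ?_⟩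
    simp only [Finset.mem_insert, Finset.mem_singleton, not_or] at hs
    obtain ⟨h1, h2, h3, h4⟩ := hs
    rw [LF_blk _ _ _ _ h1 h2, LF_blk _ _ _ _ h3 h4, LF_blk _ _ _ _ h3 h4, LF_blk _ _ _ _ h1 h2,
      List.append_assoc]
  | atRightChild x y A B C =>
    refine ⟨{x - 1, x, y - 1, y}, Finset.card_le_four, fun s hs => ?_⟩
    simp only [Finset.mem_insert, Finset.mem_singleton, not_or] at hs
    obtain ⟨h1, h2, h3, h4⟩ := hs
    rw [LF_blk _ _ _ _ h1 h2, LF_blk _ _ _ _ h3 h4, LF_blk _ _ _ _ h3 h4, LF_blk _ _ _ _ h1 h2,
      List.append_assoc]
  | @inLeft c l l' r hl ih =>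
    have hT' : inorder l ++ c :: inorder r = List.range' a (k + 1) := hT
    obtain ⟨hA, hv, hk, hB⟩ := LE_split hT'
    have hne : 0 < (inorder l).length := by
      cases hl <;> simp [inorder]
    obtain ⟨j, hj⟩ : ∃ j, (inorder l).length = j + 1 := ⟨(inorder l).length - 1, by omega⟩
    obtain ⟨D, hD, hs⟩ := ih ha (by rw [hA, hj])
    refine ⟨D, hD, fun s hsD => ?_⟩
    have e1 : gt (.node c l r) = .node (c - 1) (gt l) (gtR c r (gt r)) := by
      cases hl <;> rfl
    have e2 : gt (.node c l' r) = .node (c - 1) (gt l') (gtR c r (gt r)) := by
      cases hl <;> rfl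
    by_cases h1 : s = c - 1
    · have h2 : inorder (gt (.node c l r)) = inorder (gt (.node c l' r)) := by
        rw [gt_inorder ha hT, gt_inorder ha (by
          rw [← hT]
          exact (rot_inorder (Rot.inLeft c r hl)).symm)]
      rw [e1, e2] at h2 ⊢
      rw [blk, blk, if_pos h1, if_pos h1, h2]
    · rw [e1, e2, blk, blk, if_neg h1, if_neg h1, hs s hsD]
  | @inRight c l r r' hr ih =>
    have hT' : inorder l ++ c :: inorder r = List.range' a (k + 1) := hT
    obtain ⟨hA, hv, hk, hB⟩ := LE_split hT'
    have hne : 0 < (inorder r).length := by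
      cases hr <;> simp [inorder]
    rw [hB, List.length_range'] at hne
    obtain ⟨j, hj⟩ : ∃ j, k - (inorder l).length = j + 1 :=
      ⟨k - (inorder l).length - 1, by omega⟩
    rw [hj] at hB
    obtain ⟨D, hD, hs⟩ := ih (a := c + 1) (by omega) hB
    refine ⟨D, hD, fun s hsD => ?_⟩
    have e0 : inorder (gt r) = inorder (gt r') := by
      rw [gt_inorder (by omega) hB, gt_inorder (a := c + 1) (k := j) (by omega) (by
        rw [← hB]
        exact (rot_inorder hr).symm)]
    have e1 : gtR c r (gt r) = .node c .nil (gt r) := by
      cases hr <;> rfl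
    have e2 : gtR c r' (gt r') = .node c .nil (gt r') := by
      cases hr <;> rfl
    have e3 : blk s (gtR c r (gt r)) = blk s (gtR c r' (gt r')) := by
      rw [e1, e2]
      by_cases h1 : s = c
      · simp only [blk, if_pos h1, inorder]
        rw [e0]
      · simp only [blk, if_neg h1]
        rw [hs s hsD]
    have e4 : inorder (gtR c r (gt r)) = inorder (gtR c r' (gt r')) := by
      rw [e1, e2]
      simp only [inorder]
      rw [e0]
    cases l with
    | nil => exact e3
    | node b B1 B2 =>
      show blk s (.node (c - 1) (gt (.node b B1 B2)) (gtR c r (gt r))) =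
        blk s (.node (c - 1) (gt (.node b B1 B2)) (gtR c r' (gt r')))
      by_cases h1 : s = c - 1
      · rw [blk, blk, if_pos h1, if_pos h1]
        simp only [inorder]
        rw [e4]
      · rw [blk, blk, if_neg h1, if_neg h1, e3]

theorem rotSeq_inorder {e : ℕ} {T T' : BinaryTree ℕ} (h : RotSeq e T T') :
    inorder T = inorder T' := by
  induction h with
  | refl t => rfl
  | step h1 _ ih => rw [rot_inorder h1, ih]

/-- `e` rotations raise `Psi` by at most `4 e`. -/
theorem psi_rot {n : ℕ} {e : ℕ} {T T' : BinaryTree ℕ} (h : RotSeq e T T') {a k : ℕ} (ha : 0 < a)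
    (hT : inorder T = List.range' a (k + 1)) (L : BinaryTree ℕ) :
    Psi n L (gt T') ≤ Psi n L (gt T) + 4 * e := by
  classical
  induction h with
  | refl t => simp
  | @step e t u v h1 h2 ih =>
    have hu : inorder u = List.range' a (k + 1) := by rw [← rot_inorder h1, hT]
    have h3 := ih hu
    obtain ⟨D, hD, hs⟩ := rot_blk h1 ha hT
    have h4 : Psi n L (gt u) ≤ Psi n L (gt t) + 4 := by
      unfold Psi
      have h5 : (Finset.Ioo 0 n).filter (fun s => blk s L ≠ blk s (gt u)) ⊆
          (Finset.Ioo 0 n).filter (fun s => blk s L ≠ blk s (gt t)) ∪ D := by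
        intro s hs'
        rw [Finset.mem_filter] at hs'
        rw [Finset.mem_union, Finset.mem_filter]
        by_cases hsD : s ∈ D
        · exact Or.inr hsD
        · left
          refine ⟨hs'.1, ?_⟩
          rw [hs s hsD]
          exact hs'.2
      have h6 := Finset.card_le_card h5
      have h7 := Finset.card_union_le
        ((Finset.Ioo 0 n).filter (fun s => blk s L ≠ blk s (gt t))) D
      convert h6.trans (h7.trans (Nat.add_le_add_left hD _)) using 1
    omega

end Pool.Agent.SplLow
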