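import Pool.Agent.SplLow.Sub

set_option autoImplicit false

/-!
# The canonical low tree
-/

namespace Pool.Agent.SplLow

open BinaryTree Pool.Agent.MP_c42954_lc.Scan

/-! ## Module LJ -/

private def lj_inL : Option (BinaryTree ℕ × ℕ) → List ℕ
  | none => []
  | some (A, s) => inorder A ++ [s]

private def lj_inR : Option (ℕ × BinaryTree ℕ) → List ℕ
  | none => []
  | some (s, A) => s :: inorder A

private theorem lj_addL (x : Option (BinaryTree ℕ × ℕ)) (t : BinaryTree ℕ) :
    inorder (addL x t) = lj_inL x ++ inorder t := by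
  rcases x with _ | ⟨A, s⟩
  · simp [addL, lj_inL]
  · simp [addL, lj_inL, inorder]

private theorem lj_addR (x : Option (ℕ × BinaryTree ℕ)) (t : BinaryTree ℕ) :
    inorder (addR x t) = inorder t ++ lj_inR x := by
  rcases x with _ | ⟨s, A⟩
  · simp [addR, lj_inR]
  · simp [addR, lj_inR, inorder]

private theorem lj_jL (x y : Option (BinaryTree ℕ × ℕ)) :
    lj_inL (jL x y) = lj_inL x ++ lj_inL y := by
  rcases x with _ | ⟨A, s⟩
  · simp [jL, lj_inL]
  · rcases y with _ | ⟨B, s'⟩
    · simp [jL, lj_inL]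
    · simp [jL, lj_inL, inorder]

private theorem lj_jR (x y : Option (ℕ × BinaryTree ℕ)) :
    lj_inR (jR x y) = lj_inR y ++ lj_inR x := by
  rcases x with _ | ⟨s, A⟩
  · simp [jR, lj_inR]
  · rcases y with _ | ⟨s', B⟩
    · simp [jR, lj_inR]
    · simp [jR, lj_inR, inorder]

private theorem lj_cons (g : Grp) (gs : List Grp) :
    inorder (asm (g :: gs)) = lj_inL g.l ++ inorder (asm gs) ++ lj_inR g.r := by
  simp [asm, lj_addL, lj_addR]

private theorem lj_ins (u : Grp) (gs : List Grp) :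
    inorder (asm (ins u gs)) = lj_inL u.l ++ inorder (asm gs) ++ lj_inR u.r := by
  rcases gs with _ | ⟨g1, _ | ⟨g2, gs⟩⟩
  · rw [show ins u [] = [u] from rfl, lj_cons]
  · rw [show ins u [g1] = [u, g1] from rfl, lj_cons]
  · by_cases h : g1.rank = g2.rank
    · rw [show ins u (g1 :: g2 :: gs) =
        ⟨g1.rank + 1, jL u.l (jL g1.l g2.l), jR u.r (jR g1.r g2.r)⟩ :: gs by simp [ins, h]]
      rw [lj_cons, lj_cons, lj_cons]
      simp [lj_jL, lj_jR]
    · rw [show ins u (g1 :: g2 :: gs) = u :: g1 :: g2 :: gs by simp [ins, h], lj_cons]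

private theorem lj_rep (S : BinaryTree ℕ) : inorder (asm (rep S)) = inorder S := by
  induction S with
  | nil => simp [rep, asm]
  | node s A B ihA ihB =>
    by_cases h : A.numNodes ≤ B.numNodes
    · rw [show rep (.node s A B) = ins ⟨0, some (asm (rep A), s), none⟩ (rep B) by simp [rep, h],
        lj_ins]
      simp [lj_inL, lj_inR, inorder, ihA, ihB]
    · rw [show rep (.node s A B) = ins ⟨0, none, some (s, asm (rep B))⟩ (rep A) by simp [rep, h],
        lj_ins]
      simp [lj_inL, lj_inR, inorder, ihA, ihB]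

/-- The labels of `low S` are those of `S`, in the same order.  (Let `inL (A, s) = inorder A ++ [s]`,
`inR (s, A) = s :: inorder A`, `[]` for `none`; `inorder (addL x t) = inL x ++ inorder t`,
`inorder (addR x t) = inorder t ++ inR x`, `inL (jL x y) = inL x ++ inL y`,
`inR (jR x y) = inR y ++ inR x`, `inorder (asm (ins u gs)) = inL u.l ++ inorder (asm gs) ++ inR u.r`.)
-/
theorem low_inorder (S : BinaryTree ℕ) : inorder (low S) = inorder S := by
  exact lj_rep S

/-! ## Module LK -/

private theorem lk_sp (g : Grp) : (sp g).card ≤ 2 := by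
  obtain ⟨k, gl, gr⟩ := g
  rcases gl with _ | ⟨A, s⟩ <;> rcases gr with _ | ⟨s', B⟩
  · simp [sp]
  · simp [sp]
  · simp [sp]
  · simp only [sp]
    refine le_trans (Finset.card_union_le _ _) ?_
    simp

private theorem lk_sp2 (gs : List Grp) : (sp2 gs).card ≤ 4 := by
  rcases gs with _ | ⟨g1, _ | ⟨g2, gs⟩⟩
  · simp [sp2]
  · have := lk_sp g1
    simp only [sp2]
    omega
  · have h1 := lk_sp g1
    have h2 := lk_sp g2
    have h3 := Finset.card_union_le (sp g1) (sp g2)
    simp only [sp2]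
    omega

theorem ex_card (S : BinaryTree ℕ) : (Ex S).card ≤ 5 := by
  rcases S with _ | ⟨s, A, B⟩
  · simp [Ex]
  · simp only [Ex]
    refine le_trans (Finset.card_insert_le _ _) ?_
    have h1 := lk_sp2 (rep A)
    have h2 := lk_sp2 (rep B)
    split_ifs <;> omega

private def lk_iL (o : Option (BinaryTree ℕ × ℕ)) (t : BinaryTree ℕ) : Prop :=
  ∃ A s, o = some (A, s) ∧ Sb t A

private def lk_iR (o : Option (ℕ × BinaryTree ℕ)) (t : BinaryTree ℕ) : Prop :=
  ∃ s A, o = some (s, A) ∧ Sb t A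

private theorem lk_addL (o : Option (BinaryTree ℕ × ℕ)) {t u : BinaryTree ℕ} (h : Sb t u) :
    Sb t (addL o u) := by
  rcases o with _ | ⟨A, s⟩
  · exact h
  · exact Sb.right s A h

private theorem lk_addR (o : Option (ℕ × BinaryTree ℕ)) {t u : BinaryTree ℕ} (h : Sb t u) :
    Sb t (addR o u) := by
  rcases o with _ | ⟨s, A⟩
  · exact h
  · exact Sb.left s A h

private theorem lk_addL' {o : Option (BinaryTree ℕ × ℕ)} {t : BinaryTree ℕ} (u : BinaryTree ℕ)
    (h : lk_iL o t) : Sb t (addL o u) := by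
  obtain ⟨A, s, rfl, h⟩ := h
  exact Sb.left s u h

private theorem lk_addR' {o : Option (ℕ × BinaryTree ℕ)} {t : BinaryTree ℕ} (u : BinaryTree ℕ)
    (h : lk_iR o t) : Sb t (addR o u) := by
  obtain ⟨s, A, rfl, h⟩ := h
  exact Sb.right s u h

private theorem lk_cons {g : Grp} {gs : List Grp} {t : BinaryTree ℕ}
    (h : lk_iL g.l t ∨ lk_iR g.r t ∨ Sb t (asm gs)) : Sb t (asm (g :: gs)) := by
  rcases h with h | h | h
  · exact lk_addL' _ h
  · exact lk_addL _ (lk_addR' _ h)
  · exact lk_addL _ (lk_addR _ h)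

private theorem lk_jL1 {x : Option (BinaryTree ℕ × ℕ)} (y : Option (BinaryTree ℕ × ℕ))
    {t : BinaryTree ℕ} (h : lk_iL x t) : lk_iL (jL x y) t := by
  obtain ⟨A, s, rfl, h⟩ := h
  rcases y with _ | ⟨B, s'⟩
  · exact ⟨A, s, rfl, h⟩
  · exact ⟨.node s A B, s', rfl, Sb.left s B h⟩

private theorem lk_jL2 (x : Option (BinaryTree ℕ × ℕ)) {y : Option (BinaryTree ℕ × ℕ)}
    {t : BinaryTree ℕ} (h : lk_iL y t) : lk_iL (jL x y) t := by
  obtain ⟨B, s', rfl, h⟩ := h
  rcases x with _ | ⟨A, s⟩
  · exact ⟨B, s', rfl, h⟩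
  · exact ⟨.node s A B, s', rfl, Sb.right s A h⟩

private theorem lk_jR1 {x : Option (ℕ × BinaryTree ℕ)} (y : Option (ℕ × BinaryTree ℕ))
    {t : BinaryTree ℕ} (h : lk_iR x t) : lk_iR (jR x y) t := by
  obtain ⟨s, A, rfl, h⟩ := h
  rcases y with _ | ⟨s', B⟩
  · exact ⟨s, A, rfl, h⟩
  · exact ⟨s', .node s B A, rfl, Sb.right s B h⟩

private theorem lk_jR2 (x : Option (ℕ × BinaryTree ℕ)) {y : Option (ℕ × BinaryTree ℕ)}
    {t : BinaryTree ℕ} (h : lk_iR y t) : lk_iR (jR x y) t := by
  obtain ⟨s', B, rfl, h⟩ := h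
  rcases x with _ | ⟨s, A⟩
  · exact ⟨s', B, rfl, h⟩
  · exact ⟨s', .node s B A, rfl, Sb.left s A h⟩

private theorem lk_inv {g : Grp} {gs : List Grp} {s : ℕ} {l r : BinaryTree ℕ}
    (h : Sb (.node s l r) (asm (g :: gs))) (hs : s ∉ sp g) :
    lk_iL g.l (.node s l r) ∨ lk_iR g.r (.node s l r) ∨ Sb (.node s l r) (asm gs) := by
  obtain ⟨k, gl, gr⟩ := g
  simp only [asm] at h
  simp only
  have key : Sb (.node s l r) (addR gr (asm gs)) →
      lk_iR gr (.node s l r) ∨ Sb (.node s l r) (asm gs) := by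
    intro h
    rcases gr with _ | ⟨s', A⟩
    · exact Or.inr h
    · simp only [addR] at h
      cases h with
      | refl => exact absurd (by simp [sp]) hs
      | left _ _ h => exact Or.inr h
      | right _ _ h => exact Or.inl ⟨s', A, rfl, h⟩
  rcases gl with _ | ⟨A, s'⟩
  · simp only [addL] at h
    exact Or.inr (key h)
  · simp only [addL] at h
    generalize hw : addR gr (asm gs) = w at h key
    cases h with
    | refl => exact absurd (by simp [sp]) hs
    | left _ _ h => exact Or.inl ⟨A, s', rfl, h⟩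
    | right _ _ h => exact Or.inr (key h)

private theorem lk_ins_u {u : Grp} {gs : List Grp} {t : BinaryTree ℕ}
    (h : lk_iL u.l t ∨ lk_iR u.r t) : Sb t (asm (ins u gs)) := by
  have h' : lk_iL u.l t ∨ lk_iR u.r t ∨ Sb t (asm gs) := by
    rcases h with h | h
    · exact Or.inl h
    · exact Or.inr (Or.inl h)
  rcases gs with _ | ⟨g1, _ | ⟨g2, gs⟩⟩
  · exact lk_cons h'
  · exact lk_cons h'
  · by_cases hr : g1.rank = g2.rank
    · rw [show ins u (g1 :: g2 :: gs) =
        ⟨g1.rank + 1, jL u.l (jL g1.l g2.l), jR u.r (jR g1.r g2.r)⟩ :: gs by simp [ins, hr]]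
      apply lk_cons
      rcases h with h | h
      · exact Or.inl (lk_jL1 _ h)
      · exact Or.inr (Or.inl (lk_jR1 _ h))
    · rw [show ins u (g1 :: g2 :: gs) = u :: g1 :: g2 :: gs by simp [ins, hr]]
      exact lk_cons h'

private theorem lk_ins_gs {u : Grp} {gs : List Grp} {s : ℕ} {l r : BinaryTree ℕ}
    (h : Sb (.node s l r) (asm gs)) (hs : s ∉ sp2 gs) : Sb (.node s l r) (asm (ins u gs)) := by
  rcases gs with _ | ⟨g1, _ | ⟨g2, gs⟩⟩
  · exact lk_cons (Or.inr (Or.inr h))
  · exact lk_cons (Or.inr (Or.inr h))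
  · by_cases hr : g1.rank = g2.rank
    · rw [show ins u (g1 :: g2 :: gs) =
        ⟨g1.rank + 1, jL u.l (jL g1.l g2.l), jR u.r (jR g1.r g2.r)⟩ :: gs by simp [ins, hr]]
      simp only [sp2, Finset.mem_union, not_or] at hs
      apply lk_cons
      rcases lk_inv h hs.1 with h | h | h
      · exact Or.inl (lk_jL2 _ (lk_jL1 _ h))
      · exact Or.inr (Or.inl (lk_jR2 _ (lk_jR1 _ h)))
      · rcases lk_inv h hs.2 with h | h | h
        · exact Or.inl (lk_jL2 _ (lk_jL2 _ h))
        · exact Or.inr (Or.inl (lk_jR2 _ (lk_jR2 _ h)))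
        · exact Or.inr (Or.inr h)
    · rw [show ins u (g1 :: g2 :: gs) = u :: g1 :: g2 :: gs by simp [ins, hr]]
      exact lk_cons (Or.inr (Or.inr h))

/-- LOCAL LEMMA.  Light child: `low (light)` is a subtree of `asm (ins u gs)` as a whole.  Heavy
child: `asm (g1 :: g2 :: gs)`; a subtree whose root is not a spine gap of `g1`, `g2` is a subtree of
one of the trees of `g1`, `g2` or of `asm gs`, and all of these are subtrees of
`asm (ins u (g1 :: g2 :: gs))` in both cases of `ins`. -/
theorem low_local {v s : ℕ} {A B l r : BinaryTree ℕ}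
    (h : Sb (.node s l r) (low A) ∨ Sb (.node s l r) (low B)) (hs : s ∉ Ex (.node v A B)) :
    Sb (.node s l r) (low (.node v A B)) := by
  by_cases hAB : A.numNodes ≤ B.numNodes
  · rw [low, show rep (.node v A B) = ins ⟨0, some (asm (rep A), v), none⟩ (rep B) by
      simp [rep, hAB]]
    simp only [Ex, hAB, if_true, Finset.mem_insert, not_or] at hs
    rcases h with h | h
    · exact lk_ins_u (Or.inl ⟨_, _, rfl, h⟩)
    · exact lk_ins_gs h hs.2
  · rw [low, show rep (.node v A B) = ins ⟨0, none, some (v, asm (rep B))⟩ (rep A) by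
      simp [rep, hAB]]
    simp only [Ex, hAB, if_false, Finset.mem_insert, not_or] at hs
    rcases h with h | h
    · exact lk_ins_gs h hs.2
    · exact lk_ins_u (Or.inr ⟨_, _, rfl, h⟩)

/-! ## Module LL

`D L := union of Ex T over the subtrees T of L with root in U`: `≤ 5 |U|` elements (for instance
`U.biUnion (fun v => Ex (the subtree of L with root v))`).  Claim: if `s ∉ D L`, `s ∉ D L'` then
`Cm (low L) (low L') x s`.  `s ∉ U` since `s ∈ Ex T` for the subtree `T` of `L` with root `s`.  Let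
`S` be a common subtree of `L`, `L'` avoiding `x`, with `s` as a label and with the largest
`numNodes` (there is one: the subtree with root `s`), `t0` the subtree of `low S` with root `s`
(`low_inorder`, `exists_sb`).  For all `T` with `Sb S T`, `Sb T L` we have `Sb t0 (low T)`: induction
on `T`; `T = S` is clear; `T = node v A B` with `Sb S A` or `Sb S B`: `v ∈ U`, otherwise the common
subtree with root `v` is `T` (`Sb.unique`), larger than `S`; so `s ∉ Ex T` and `low_local` applies.
`t0` avoids `x` since its labels are labels of `S`. -/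

open Classical in
/-- `Ex` of the subtree of `L` with root `v`. -/
private noncomputable def LL_ex (L : BinaryTree ℕ) (v : ℕ) : Finset ℕ :=
  if h : ∃ p : BinaryTree ℕ × BinaryTree ℕ, Sb (.node v p.1 p.2) L then
    Ex (.node v (Classical.choose h).1 (Classical.choose h).2)
  else ∅

private theorem LL_ex_eq {L : BinaryTree ℕ} (hL : IsBST L) {v : ℕ} {l r : BinaryTree ℕ}
    (h : Sb (.node v l r) L) : LL_ex L v = Ex (.node v l r) := by
  have h1 : ∃ p : BinaryTree ℕ × BinaryTree ℕ, Sb (.node v p.1 p.2) L := ⟨(l, r), h⟩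
  unfold LL_ex
  rw [dif_pos h1]
  obtain ⟨h2, h3⟩ := Sb.unique hL (Classical.choose_spec h1) h
  rw [h2, h3]

private theorem LL_ex_card (L : BinaryTree ℕ) (v : ℕ) : (LL_ex L v).card ≤ 5 := by
  unfold LL_ex
  split_ifs with h
  · exact ex_card _
  · simp

private theorem LL_mem_ex (s : ℕ) (A B : BinaryTree ℕ) : s ∈ Ex (.node s A B) := by
  unfold Ex
  exact Finset.mem_insert_self _ _

private theorem LL_bst {n : ℕ} {L : BinaryTree ℕ} (hL : inorder L = List.range' 1 (n - 1)) :
    IsBST L := by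
  unfold IsBST
  rw [hL]
  exact List.pairwise_lt_range'

private theorem LL_range {n : ℕ} {L : BinaryTree ℕ} (hL : inorder L = List.range' 1 (n - 1))
    (v : ℕ) : v ∈ inorder L ↔ v ∈ Finset.Ioo 0 n := by
  rw [hL, List.mem_range'_1, Finset.mem_Ioo]
  omega

/-- The induction: `M` is one of the two trees, `S` a largest common subtree. -/
private theorem LL_up {s : ℕ} {W : Finset ℕ} {M S l0 r0 : BinaryTree ℕ} (hM : IsBST M)
    (hs : s ∉ W.biUnion (LL_ex M)) (h0 : Sb (.node s l0 r0) (low S)) (hsS : s ∈ inorder S)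
    (hW : ∀ v A B, Sb (.node v A B) M → Sb S (.node v A B) → v ∉ W →
      (BinaryTree.node v A B).numNodes ≤ S.numNodes) :
    ∀ T, Sb S T → Sb T M → Sb (.node s l0 r0) (low T) := by
  intro T
  induction T with
  | nil =>
    intro h1 _
    cases h1
    exact h0
  | node v A B ihA ihB =>
    intro h1 h2
    have key : (Sb S A ∨ Sb S B) → s ∉ Ex (.node v A B) := by
      intro h3
      have hv : v ∈ W := by
        by_contra hv
        have h4 := hW v A B h2 h1 hv
        have h5 : S.numNodes ≤ A.numNodes + B.numNodes := by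
          rcases h3 with h3 | h3
          · have := Sb.numNodes h3
            omega
          · have := Sb.numNodes h3
            omega
        have h6 : (BinaryTree.node v A B).numNodes = A.numNodes + B.numNodes + 1 := rfl
        omega
      intro h4
      apply hs
      rw [Finset.mem_biUnion]
      refine ⟨v, hv, ?_⟩
      rw [LL_ex_eq hM h2]
      exact h4
    cases h1 with
    | refl => exact h0
    | left _ _ h3 =>
      exact low_local (Or.inl (ihA h3 (Sb.trans (Sb.left v B Sb.refl) h2))) (key (Or.inl h3))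
    | right _ _ h3 =>
      exact low_local (Or.inr (ihB h3 (Sb.trans (Sb.right v A Sb.refl) h2))) (key (Or.inr h3))

private theorem LL_cm {n : ℕ} {L L' : BinaryTree ℕ} (x : ℕ)
    (hL : inorder L = List.range' 1 (n - 1)) (hL' : inorder L' = List.range' 1 (n - 1))
    {s : ℕ} (hsn : s ∈ Finset.Ioo 0 n) (h1 : s ∉ (U n L L' x).biUnion (LL_ex L))
    (h2 : s ∉ (U n L L' x).biUnion (LL_ex L')) : Cm (low L) (low L') x s := by
  classical
  have hB := LL_bst hL
  have hB' := LL_bst hL'
  have hsL : s ∈ inorder L := (LL_range hL s).2 hsn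
  have hU : ∀ v, v ∈ Finset.Ioo 0 n → v ∉ U n L L' x → Cm L L' x v := by
    intro v hv hvU
    by_contra h
    apply hvU
    unfold U
    rw [Finset.mem_filter]
    exact ⟨hv, h⟩
  have hsU : s ∉ U n L L' x := by
    intro h
    obtain ⟨l, r, hlr⟩ := exists_sb hsL
    apply h1
    rw [Finset.mem_biUnion]
    refine ⟨s, h, ?_⟩
    rw [LL_ex_eq hB hlr]
    exact LL_mem_ex s l r
  obtain ⟨l, r, c1, c2, c3⟩ := hU s hsn hsU
  let P : ℕ → Prop := fun k => ∃ S : BinaryTree ℕ, (Sb S L ∧ Sb S L' ∧ Av x S ∧ s ∈ inorder S) ∧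
    S.numNodes = k
  have hP : P (BinaryTree.node s l r).numNodes := ⟨_, ⟨c1, c2, c3, root_mem s l r⟩, rfl⟩
  have hle : (BinaryTree.node s l r).numNodes ≤ L.numNodes := Sb.numNodes c1
  obtain ⟨S, ⟨d1, d2, d3, d4⟩, d5⟩ : P (Nat.findGreatest P L.numNodes) :=
    Nat.findGreatest_spec hle hP
  have hmax : ∀ S' : BinaryTree ℕ, Sb S' L → Sb S' L' → Av x S' → s ∈ inorder S' →
      S'.numNodes ≤ S.numNodes := by
    intro S' e1 e2 e3 e4
    rw [d5]
    exact Nat.le_findGreatest (Sb.numNodes e1) ⟨S', ⟨e1, e2, e3, e4⟩, rfl⟩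
  have hsS : s ∈ inorder (low S) := by
    rw [low_inorder]
    exact d4
  obtain ⟨l0, r0, h0⟩ := exists_sb hsS
  have hW : ∀ v A B, Sb (.node v A B) L → Sb S (.node v A B) → v ∉ U n L L' x →
      (BinaryTree.node v A B).numNodes ≤ S.numNodes := by
    intro v A B e1 e2 e3
    have hv : v ∈ Finset.Ioo 0 n := (LL_range hL v).1 (Sb.mem e1 (root_mem v A B))
    obtain ⟨l1, r1, f1, f2, f3⟩ := hU v hv e3
    obtain ⟨g1, g2⟩ := Sb.unique hB e1 f1
    subst g1
    subst g2
    exact hmax _ e1 f2 f3 (Sb.mem e2 d4)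
  have hW' : ∀ v A B, Sb (.node v A B) L' → Sb S (.node v A B) → v ∉ U n L L' x →
      (BinaryTree.node v A B).numNodes ≤ S.numNodes := by
    intro v A B e1 e2 e3
    have hv : v ∈ Finset.Ioo 0 n := (LL_range hL' v).1 (Sb.mem e1 (root_mem v A B))
    obtain ⟨l1, r1, f1, f2, f3⟩ := hU v hv e3
    obtain ⟨g1, g2⟩ := Sb.unique hB' e1 f2
    subst g1
    subst g2
    exact hmax _ f1 e1 f3 (Sb.mem e2 d4)
  refine ⟨l0, r0, LL_up hB h1 h0 d4 hW L d1 Sb.refl, LL_up hB' h2 h0 d4 hW' L' d2 Sb.refl, ?_⟩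
  have hmem : ∀ y, y ∈ inorder (BinaryTree.node s l0 r0) → y ∈ inorder S := by
    intro y hy
    rw [← low_inorder S]
    exact Sb.mem h0 hy
  exact ⟨fun h => d3.1 (hmem _ h), fun h => d3.2 (hmem _ h)⟩

theorem low_card {n : ℕ} {L L' : BinaryTree ℕ} (x : ℕ) (hL : inorder L = List.range' 1 (n - 1))
    (hL' : inorder L' = List.range' 1 (n - 1)) :
    (U n (low L) (low L') x).card ≤ 10 * (U n L L' x).card := by
  classical
  have h1 : U n (low L) (low L') x ⊆
      (U n L L' x).biUnion (LL_ex L) ∪ (U n L L' x).biUnion (LL_ex L') := by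
    intro s hs
    by_contra hc
    rw [Finset.mem_union, not_or] at hc
    unfold U at hs
    rw [Finset.mem_filter] at hs
    exact hs.2 (LL_cm x hL hL' hs.1 hc.1 hc.2)
  have h2 : ∀ M : BinaryTree ℕ, ((U n L L' x).biUnion (LL_ex M)).card ≤ (U n L L' x).card * 5 :=
    fun M => Finset.card_biUnion_le_card_mul _ _ _ fun v _ => LL_ex_card M v
  calc (U n (low L) (low L') x).card
      ≤ ((U n L L' x).biUnion (LL_ex L) ∪ (U n L L' x).biUnion (LL_ex L')).card :=
        Finset.card_le_card h1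
    _ ≤ ((U n L L' x).biUnion (LL_ex L)).card + ((U n L L' x).biUnion (LL_ex L')).card :=
        Finset.card_union_le _ _
    _ ≤ (U n L L' x).card * 5 + (U n L L' x).card * 5 := add_le_add (h2 L) (h2 L')
    _ = 10 * (U n L L' x).card := by ring

/-! ## Module LM -/

/-- The number of units of a list of groups. -/
def units : List Grp → ℕ
  | [] => 0
  | g :: gs => (2 ^ (g.rank + 1) - 1) + units gs

/-- The skew-binary condition: the ranks are strictly increasing, except that the first two may be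
equal. -/
def Skew : List Grp → Prop
  | [] => True
  | g :: gs => (∀ g' ∈ gs, g.rank ≤ g'.rank) ∧ gs.Pairwise (fun g g' => g.rank < g'.rank)

theorem ins_skew {u : Grp} {gs : List Grp} (hu : u.rank = 0) (h : Skew gs) : Skew (ins u gs) := by
  rcases gs with _ | ⟨g1, _ | ⟨g2, gs⟩⟩
  · simp [ins, Skew]
  · simp [ins, Skew, hu]
  · by_cases hr : g1.rank = g2.rank
    · rw [show ins u (g1 :: g2 :: gs) =
        ⟨g1.rank + 1, jL u.l (jL g1.l g2.l), jR u.r (jR g1.r g2.r)⟩ :: gs by simp [ins, hr]]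
      obtain ⟨h1, h2⟩ := h
      rw [List.pairwise_cons] at h2
      refine ⟨?_, h2.2⟩
      intro g' hg'
      have := h2.1 g' hg'
      simp only
      omega
    · rw [show ins u (g1 :: g2 :: gs) = u :: g1 :: g2 :: gs by simp [ins, hr]]
      obtain ⟨h1, h2⟩ := h
      have h12 : g1.rank < g2.rank := lt_of_le_of_ne (h1 g2 (by simp)) hr
      refine ⟨?_, ?_⟩
      · intro g' _
        omega
      · rw [List.pairwise_cons]
        refine ⟨?_, h2⟩
        intro g' hg'
        rw [List.mem_cons] at hg'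
        rcases hg' with rfl | hg'
        · exact h12
        · rw [List.pairwise_cons] at h2
          exact lt_trans h12 (h2.1 g' hg')

theorem ins_units {u : Grp} {gs : List Grp} (hu : u.rank = 0) :
    units (ins u gs) = units gs + 1 := by
  rcases gs with _ | ⟨g1, _ | ⟨g2, gs⟩⟩
  · simp [ins, units, hu]
  · simp [ins, units, hu]
    omega
  · by_cases hr : g1.rank = g2.rank
    · rw [show ins u (g1 :: g2 :: gs) =
        ⟨g1.rank + 1, jL u.l (jL g1.l g2.l), jR u.r (jR g1.r g2.r)⟩ :: gs by simp [ins, hr]]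
      simp only [units]
      have h1 : 0 < 2 ^ (g1.rank + 1) := by positivity
      have h2 : 2 ^ (g1.rank + 1 + 1) = 2 * 2 ^ (g1.rank + 1) := by ring
      rw [h2, ← hr]
      omega
    · rw [show ins u (g1 :: g2 :: gs) = u :: g1 :: g2 :: gs by simp [ins, hr]]
      simp only [units, hu]
      omega

private def lm_hL : Option (BinaryTree ℕ × ℕ) → ℕ
  | none => 0
  | some (A, _) => A.height

private def lm_hR : Option (ℕ × BinaryTree ℕ) → ℕ
  | none => 0
  | some (_, A) => A.height

private theorem lm_gh (g : Grp) : gh g = max (lm_hL g.l) (lm_hR g.r) := by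
  obtain ⟨k, gl, gr⟩ := g
  rcases gl with _ | ⟨A, s⟩ <;> rcases gr with _ | ⟨s', B⟩ <;> rfl

private theorem lm_jL (x y : Option (BinaryTree ℕ × ℕ)) :
    lm_hL (jL x y) ≤ max (lm_hL x) (lm_hL y) + 1 := by
  rcases x with _ | ⟨A, s⟩
  · simp only [jL, lm_hL]
    omega
  · rcases y with _ | ⟨B, s'⟩
    · simp only [jL, lm_hL]
      omega
    · simp only [jL, lm_hL, BinaryTree.height]
      omega

private theorem lm_jR (x y : Option (ℕ × BinaryTree ℕ)) :
    lm_hR (jR x y) ≤ max (lm_hR x) (lm_hR y) + 1 := by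
  rcases x with _ | ⟨s, A⟩
  · simp only [jR, lm_hR]
    omega
  · rcases y with _ | ⟨s', B⟩
    · simp only [jR, lm_hR]
      omega
    · simp only [jR, lm_hR, BinaryTree.height]
      omega

/-- If all trees of the groups have height `≤ h + 2 rank`, so after `ins`. -/
theorem ins_gh {u : Grp} {gs : List Grp} {h : ℕ} (hu : u.rank = 0) (hh : gh u ≤ h)
    (hg : ∀ g ∈ gs, gh g ≤ h + 2 * g.rank) : ∀ g ∈ ins u gs, gh g ≤ h + 2 * g.rank := by
  rcases gs with _ | ⟨g1, _ | ⟨g2, gs⟩⟩
  · intro g hgm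
    rw [show ins u [] = [u] from rfl, List.mem_singleton] at hgm
    subst hgm
    omega
  · intro g hgm
    rw [show ins u [g1] = [u, g1] from rfl, List.mem_cons] at hgm
    rcases hgm with rfl | hgm
    · omega
    · exact hg g hgm
  · by_cases hr : g1.rank = g2.rank
    · rw [show ins u (g1 :: g2 :: gs) =
        ⟨g1.rank + 1, jL u.l (jL g1.l g2.l), jR u.r (jR g1.r g2.r)⟩ :: gs by simp [ins, hr]]
      intro g hg'
      rw [List.mem_cons] at hg'
      rcases hg' with rfl | hg'
      · have h1 := hg g1 (by simp)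
        have h2 := hg g2 (by simp)
        rw [lm_gh] at h1 h2 hh ⊢
        simp only
        have e1 := lm_jL u.l (jL g1.l g2.l)
        have e2 := lm_jL g1.l g2.l
        have e3 := lm_jR u.r (jR g1.r g2.r)
        have e4 := lm_jR g1.r g2.r
        omega
      · exact hg g (by simp [hg'])
    · rw [show ins u (g1 :: g2 :: gs) = u :: g1 :: g2 :: gs by simp [ins, hr]]
      intro g hg'
      rw [List.mem_cons] at hg'
      rcases hg' with rfl | hg'
      · omega
      · exact hg g hg'

private theorem lm_addL (o : Option (BinaryTree ℕ × ℕ)) (t : BinaryTree ℕ) :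
    (addL o t).height ≤ max (lm_hL o) t.height + 1 := by
  rcases o with _ | ⟨A, s⟩
  · simp only [addL, lm_hL]
    omega
  · simp only [addL, lm_hL, BinaryTree.height]
    omega

private theorem lm_addR (o : Option (ℕ × BinaryTree ℕ)) (t : BinaryTree ℕ) :
    (addR o t).height ≤ max (lm_hR o) t.height + 1 := by
  rcases o with _ | ⟨s, A⟩
  · simp only [addR, lm_hR]
    omega
  · simp only [addR, lm_hR, BinaryTree.height]
    omega

/-- The height of the tree of a list of groups: two spine gaps per group. -/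
theorem asm_height {gs : List Grp} {h : ℕ} (hg : ∀ g ∈ gs, gh g ≤ h) :
    (asm gs).height ≤ h + 2 * gs.length := by
  induction gs with
  | nil => simp [asm]
  | cons g gs ih =>
    have h1 := hg g (by simp)
    have h2 := ih (fun g' hg' => hg g' (by simp [hg']))
    rw [lm_gh] at h1
    have e1 := lm_addL g.l (addR g.r (asm gs))
    have e2 := lm_addR g.r (asm gs)
    simp only [asm, List.length_cons]
    omega

/-- The number of groups and the ranks are at most logarithmic: if `units gs + 1 ≤ 2 ^ L0 * 2 - 1`,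
then every rank is `≤ L0 - 1`... and there are at most `L0 + 1` groups. -/
theorem skew_rank {gs : List Grp} {L0 : ℕ} (h : units gs + 1 < 2 ^ (L0 + 1)) :
    ∀ g ∈ gs, g.rank < L0 := by
  have key : ∀ gs : List Grp, ∀ g ∈ gs, 2 ^ (g.rank + 1) - 1 ≤ units gs := by
    intro gs
    induction gs with
    | nil => simp
    | cons g gs ih =>
      intro g' hg'
      rw [List.mem_cons] at hg'
      simp only [units]
      rcases hg' with rfl | hg'
      · omega
      · have := ih g' hg'
        omega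
  intro g hg
  have h1 := key gs g hg
  have h2 : 0 < 2 ^ (g.rank + 1) := by positivity
  have h3 : 2 ^ (g.rank + 1) < 2 ^ (L0 + 1) := by omega
  have h4 := (Nat.pow_lt_pow_iff_right (by norm_num : 1 < 2)).1 h3
  omega

private theorem lm_len {gs : List Grp} {L0 : ℕ} (hs : gs.Pairwise (fun g g' => g.rank < g'.rank))
    (hg : ∀ g ∈ gs, g.rank < L0) : gs.length ≤ L0 := by
  have hn : (gs.map Grp.rank).Nodup := by
    rw [List.Nodup, List.pairwise_map]
    exact hs.imp (fun h => ne_of_lt h)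
  have h1 : (gs.map Grp.rank).toFinset.card = (gs.map Grp.rank).length :=
    List.toFinset_card_of_nodup hn
  have h2 : (gs.map Grp.rank).toFinset ⊆ Finset.range L0 := by
    intro k hk
    rw [List.mem_toFinset, List.mem_map] at hk
    obtain ⟨g, hgm, rfl⟩ := hk
    exact Finset.mem_range.2 (hg g hgm)
  have h3 := Finset.card_le_card h2
  rw [h1, List.length_map, Finset.card_range] at h3
  exact h3

theorem skew_length {gs : List Grp} {L0 : ℕ} (hs : Skew gs) (hg : ∀ g ∈ gs, g.rank < L0) :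
    gs.length ≤ L0 + 1 := by
  rcases gs with _ | ⟨g, gs⟩
  · simp
  · have := lm_len hs.2 (fun g' hg' => hg g' (by simp [hg']))
    simp only [List.length_cons]
    omega

/-! ## Module LN

Invariant of `gs = rep S` for `h` = a bound for the heights of the light trees: `Skew gs`,
`units gs ≤ S.numNodes`, `gh g ≤ h + 2 rank g`.  Statement by induction on `S`:
`Skew (rep S) ∧ units (rep S) ≤ S.numNodes ∧ ∀ g ∈ rep S, gh g ≤ (lam S - 1) (4 L0 + 4) + 2 rank g`
where `lam S = Nat.log 2 (S.numNodes + 1)`; then `asm_height`, `skew_rank`, `skew_length` give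
`(low S).height ≤ (lam S - 1) (4 L0 + 4) + 2 L0 + 2 (L0 + 1) ≤ lam S (4 L0 + 4)` if `S` is not empty.
Light child `A`: `2 (|A| + 1) ≤ |S| + 1`, so `lam A ≤ lam S - 1`; heavy child: `lam ≤ lam S`. -/

private theorem LN_step {gs : List Grp} {N L0 : ℕ} (hN : 1 ≤ N) (hL : Nat.log 2 (N + 1) ≤ L0)
    (hs : Skew gs) (hu : units gs ≤ N)
    (hg : ∀ g ∈ gs, gh g ≤ (Nat.log 2 (N + 1) - 1) * (4 * L0 + 4) + 2 * g.rank) :
    (asm gs).height ≤ Nat.log 2 (N + 1) * (4 * L0 + 4) := by
  have h1 : N + 1 < 2 ^ (Nat.log 2 (N + 1) + 1) := Nat.lt_pow_succ_log_self (by norm_num) _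
  have h2 : (2 : ℕ) ^ (Nat.log 2 (N + 1) + 1) ≤ 2 ^ (L0 + 1) :=
    Nat.pow_le_pow_right (by norm_num) (by omega)
  have h3 : units gs + 1 < 2 ^ (L0 + 1) := by omega
  have h4 := skew_rank h3
  have h5 := skew_length hs h4
  have h6 : 1 ≤ Nat.log 2 (N + 1) := Nat.log_pos (by norm_num) (by omega)
  have h7 : (asm gs).height ≤ ((Nat.log 2 (N + 1) - 1) * (4 * L0 + 4) + 2 * L0) +
      2 * gs.length := by
    apply asm_height
    intro g hgs
    have h8 := hg g hgs
    have h9 := h4 g hgs
    omega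
  have h8 : Nat.log 2 (N + 1) * (4 * L0 + 4) =
      (Nat.log 2 (N + 1) - 1) * (4 * L0 + 4) + (4 * L0 + 4) := by
    obtain ⟨t, ht⟩ := Nat.exists_eq_add_of_le h6
    rw [ht, Nat.add_sub_cancel_left]
    ring
  omega

private theorem LN_low {S : BinaryTree ℕ} {L0 : ℕ} (hL : Nat.log 2 (S.numNodes + 1) ≤ L0)
    (h : Skew (rep S) ∧ units (rep S) ≤ S.numNodes ∧
      ∀ g ∈ rep S, gh g ≤ (Nat.log 2 (S.numNodes + 1) - 1) * (4 * L0 + 4) + 2 * g.rank) :
    (asm (rep S)).height ≤ Nat.log 2 (S.numNodes + 1) * (4 * L0 + 4) := by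
  cases S with
  | nil =>
    show (BinaryTree.nil : BinaryTree ℕ).height ≤ _
    exact Nat.zero_le _
  | node s A B =>
    have h1 : (BinaryTree.node s A B).numNodes = A.numNodes + B.numNodes + 1 := rfl
    exact LN_step (by omega) hL h.1 h.2.1 h.2.2

private theorem LN_inv (L0 : ℕ) : ∀ S : BinaryTree ℕ, Nat.log 2 (S.numNodes + 1) ≤ L0 →
    Skew (rep S) ∧ units (rep S) ≤ S.numNodes ∧
      ∀ g ∈ rep S, gh g ≤ (Nat.log 2 (S.numNodes + 1) - 1) * (4 * L0 + 4) + 2 * g.rank := by
  intro S
  induction S with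
  | nil =>
    intro _
    refine ⟨trivial, Nat.zero_le _, ?_⟩
    intro g hg
    exact absurd hg (by simp [rep])
  | node s A B ihA ihB =>
    intro hL
    have hN : (BinaryTree.node s A B).numNodes = A.numNodes + B.numNodes + 1 := rfl
    rw [hN] at hL ⊢
    have mA : Nat.log 2 (A.numNodes + 1) ≤ Nat.log 2 (A.numNodes + B.numNodes + 1 + 1) :=
      Nat.log_mono_right (by omega)
    have mB : Nat.log 2 (B.numNodes + 1) ≤ Nat.log 2 (A.numNodes + B.numNodes + 1 + 1) :=
      Nat.log_mono_right (by omega)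
    have iA := ihA (mA.trans hL)
    have iB := ihB (mB.trans hL)
    have dbl : ∀ a m : ℕ, 2 * (a + 1) ≤ m → Nat.log 2 (a + 1) + 1 ≤ Nat.log 2 m := by
      intro a m h
      calc Nat.log 2 (a + 1) + 1 = Nat.log 2 ((a + 1) * 2) :=
            (Nat.log_mul_base (by norm_num) (by omega)).symm
        _ ≤ Nat.log 2 m := Nat.log_mono_right (by omega)
    have hvy : ∀ gs : List Grp, ∀ lam lam' : ℕ, lam' ≤ lam →
        (∀ g ∈ gs, gh g ≤ (lam' - 1) * (4 * L0 + 4) + 2 * g.rank) →
        ∀ g ∈ gs, gh g ≤ (lam - 1) * (4 * L0 + 4) + 2 * g.rank := by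
      intro gs lam lam' hl h g hg
      have h1 := h g hg
      have h2 : (lam' - 1) * (4 * L0 + 4) ≤ (lam - 1) * (4 * L0 + 4) :=
        Nat.mul_le_mul_right _ (by omega)
      omega
    by_cases hAB : A.numNodes ≤ B.numNodes
    · have hr : rep (.node s A B) = ins ⟨0, some (asm (rep A), s), none⟩ (rep B) := by
        rw [rep, if_pos hAB]
      have hl : Nat.log 2 (A.numNodes + 1) + 1 ≤
          Nat.log 2 (A.numNodes + B.numNodes + 1 + 1) := dbl _ _ (by omega)
      have hgu : gh ⟨0, some (asm (rep A), s), none⟩ ≤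
          (Nat.log 2 (A.numNodes + B.numNodes + 1 + 1) - 1) * (4 * L0 + 4) := by
        have h1 := LN_low (mA.trans hL) iA
        have h2 : Nat.log 2 (A.numNodes + 1) * (4 * L0 + 4) ≤
            (Nat.log 2 (A.numNodes + B.numNodes + 1 + 1) - 1) * (4 * L0 + 4) :=
          Nat.mul_le_mul_right _ (by omega)
        show max (asm (rep A)).height 0 ≤ _
        exact max_le (h1.trans h2) (Nat.zero_le _)
      rw [hr]
      refine ⟨ins_skew rfl iB.1, ?_, ins_gh rfl hgu (hvy _ _ _ mB iB.2.2)⟩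
      rw [ins_units rfl]
      have := iB.2.1
      omega
    · have hr : rep (.node s A B) = ins ⟨0, none, some (s, asm (rep B))⟩ (rep A) := by
        rw [rep, if_neg hAB]
      have hl : Nat.log 2 (B.numNodes + 1) + 1 ≤
          Nat.log 2 (A.numNodes + B.numNodes + 1 + 1) := dbl _ _ (by omega)
      have hgu : gh ⟨0, none, some (s, asm (rep B))⟩ ≤
          (Nat.log 2 (A.numNodes + B.numNodes + 1 + 1) - 1) * (4 * L0 + 4) := by
        have h1 := LN_low (mB.trans hL) iB
        have h2 : Nat.log 2 (B.numNodes + 1) * (4 * L0 + 4) ≤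
            (Nat.log 2 (A.numNodes + B.numNodes + 1 + 1) - 1) * (4 * L0 + 4) :=
          Nat.mul_le_mul_right _ (by omega)
        show max 0 (asm (rep B)).height ≤ _
        exact max_le (Nat.zero_le _) (h1.trans h2)
      rw [hr]
      refine ⟨ins_skew rfl iA.1, ?_, ins_gh rfl hgu (hvy _ _ _ mA iA.2.2)⟩
      rw [ins_units rfl]
      have := iA.2.1
      omega

theorem low_height {S : BinaryTree ℕ} {L0 : ℕ} (h : Nat.log 2 (S.numNodes + 1) ≤ L0) :
    (low S).height ≤ Nat.log 2 (S.numNodes + 1) * (4 * L0 + 4) := by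
  exact LN_low h (LN_inv L0 S h)

end Pool.Agent.SplLow
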