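import Pool.Agent.SplLow.Gt

set_option autoImplicit false

/-!
# The lazy tree
-/

namespace Pool.Agent.SplLow

open BinaryTree Pool.Agent.MP_c42954_lc.Scan

/-! ## Module LG (induction on `R`) -/

theorem lz_inorder (L : BinaryTree ℕ) (x : ℕ) (R : BinaryTree ℕ) :
    inorder (lz L x R) = inorder R := by
  classical
  induction R with
  | nil => rfl
  | node a l r ihl ihr =>
    unfold lz
    split_ifs with h
    · exact (Classical.choose_spec h).2.1
    · simp only [inorder]
      rw [ihl, ihr]

theorem Kp_mem {L : BinaryTree ℕ} {x : ℕ} {R : BinaryTree ℕ} {s : ℕ} (h : s ∈ Kp L x R) :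
    s ∈ inorder R := by
  classical
  induction R with
  | nil => simp [Kp] at h
  | node a l r ihl ihr =>
    unfold Kp at h
    split_ifs at h with hh
    · simp at h
    · rw [Finset.mem_insert, Finset.mem_union] at h
      rw [mem_node]
      rcases h with h | h | h
      · exact Or.inr (Or.inl h)
      · exact Or.inl (ihl h)
      · exact Or.inr (Or.inr (ihr h))

/-- A kept label: no hole at its subtree in `R`, and its block in the lazy tree is the one
of `R`. -/
theorem lz_kept {L : BinaryTree ℕ} {x : ℕ} {R : BinaryTree ℕ} (hR : IsBST R) {s : ℕ}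
    (hs : s ∈ Kp L x R) :
    (∃ l r, Sb (.node s l r) R ∧ ¬ ∃ S, Hol L x (.node s l r) S) ∧
      blk s (lz L x R) = blk s R := by
  classical
  induction R with
  | nil => simp [Kp] at hs
  | node a l r ihl ihr =>
    unfold Kp at hs
    unfold lz
    by_cases hh : ∃ S, Hol L x (.node a l r) S
    · rw [if_pos hh] at hs
      simp at hs
    · rw [if_neg hh] at hs
      rw [dif_neg hh]
      obtain ⟨hl, hr, h1, h2⟩ := bst_node.1 hR
      rw [Finset.mem_insert, Finset.mem_union] at hs
      rcases hs with hs | hs | hs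
      · subst hs
        refine ⟨⟨l, r, Sb.refl, hh⟩, ?_⟩
        simp only [blk, if_true, inorder]
        rw [lz_inorder, lz_inorder]
      · obtain ⟨⟨l', r', h3, h4⟩, h5⟩ := ihl hl hs
        have hm := Kp_mem hs
        have hne : s ≠ a := (h1 s hm).ne
        have hnr : s ∉ inorder r := fun hc => by
          have h6 := h1 s hm
          have h7 := h2 s hc
          omega
        refine ⟨⟨l', r', Sb.left a r h3, h4⟩, ?_⟩
        simp only [blk, if_neg hne]
        rw [h5, blk_nil hnr, blk_nil (T := lz L x r) (by rw [lz_inorder]; exact hnr)]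
      · obtain ⟨⟨l', r', h3, h4⟩, h5⟩ := ihr hr hs
        have hm := Kp_mem hs
        have hne : s ≠ a := (h2 s hm).ne'
        have hnl : s ∉ inorder l := fun hc => by
          have h6 := h1 s hc
          have h7 := h2 s hm
          omega
        refine ⟨⟨l', r', Sb.right a l h3, h4⟩, ?_⟩
        simp only [blk, if_neg hne]
        rw [h5, blk_nil hnl, blk_nil (T := lz L x l) (by rw [lz_inorder]; exact hnl)]

/-- The subtree of a label which is not kept is a subtree of `L` and avoids `x`. -/
theorem lz_hole {L : BinaryTree ℕ} {x : ℕ} {R : BinaryTree ℕ} {s : ℕ} (hs : s ∈ inorder R)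
    (h : s ∉ Kp L x R) : Cm L (lz L x R) x s := by
  classical
  induction R with
  | nil => simp [inorder] at hs
  | node a l r ihl ihr =>
    unfold Kp at h
    unfold lz
    by_cases hh : ∃ S, Hol L x (.node a l r) S
    · rw [dif_pos hh]
      obtain ⟨h1, h2, h3⟩ := Classical.choose_spec hh
      rw [← h2] at hs
      obtain ⟨l', r', h4⟩ := exists_sb hs
      have h5 : Av x (Classical.choose hh) := by
        unfold Av at h3 ⊢
        rw [h2]
        exact h3
      exact ⟨l', r', h4.trans h1, h4, h4.avoid h5⟩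
    · rw [if_neg hh, Finset.mem_insert, Finset.mem_union] at h
      rw [dif_neg hh]
      push Not at h
      obtain ⟨hne, hl, hr⟩ := h
      rw [mem_node] at hs
      rcases hs with hs | hs | hs
      · obtain ⟨l', r', h1, h2, h3⟩ := ihl hs hl
        exact ⟨l', r', h1, Sb.left a _ h2, h3⟩
      · exact absurd hs hne
      · obtain ⟨l', r', h1, h2, h3⟩ := ihr hs hr
        exact ⟨l', r', h1, Sb.right a _ h2, h3⟩

/-! ## Module LH

Kept `s` with `¬ Av x (subtree of s in R)`: `s ∈ Anc n R x`.  Kept `s` with `Av x ..`: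
`blk s L ≠ blk s R`, otherwise the subtree `S` of `L` with root `s` (there is one, `exists_sb`) has
`inorder S = blk s L = blk s R = inorder (node s l r)`, so it is a hole; and
`blk s (lz L x R) = blk s R`.  Not kept `s`: `s ∉ U n L (lz L x R) x` and `blk s (lz L x R) = blk s L`
(`blk_eq` twice). -/

theorem lz_step {n : ℕ} {L R : BinaryTree ℕ} (x : ℕ) (hL : inorder L = List.range' 1 (n - 1))
    (hR : inorder R = List.range' 1 (n - 1)) :
    (U n L (lz L x R) x).card + Psi n (lz L x R) R ≤ (Anc n R x).card + Psi n L R := by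
  classical
  have hbst : ∀ {G : BinaryTree ℕ}, inorder G = List.range' 1 (n - 1) → IsBST G := by
    intro G hG
    unfold IsBST
    rw [hG]
    exact List.pairwise_lt_range'
  have hBL := hbst hL
  have hBR := hbst hR
  have hBz : IsBST (lz L x R) := hbst (by rw [lz_inorder, hR])
  have hmem : ∀ s ∈ Finset.Ioo 0 n, s ∈ List.range' 1 (n - 1) := by
    intro s hs
    rw [Finset.mem_Ioo] at hs
    rw [List.mem_range'_1]
    omega
  set P := (Finset.Ioo 0 n).filter (fun s => blk s L ≠ blk s R) with hP
  have h1 : U n L (lz L x R) x ⊆ Anc n R x ∪ P.filter (fun s => s ∈ Kp L x R) := by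
    intro s hs
    unfold U at hs
    rw [Finset.mem_filter] at hs
    obtain ⟨hs0, hs1⟩ := hs
    have hsR : s ∈ inorder R := by rw [hR]; exact hmem s hs0
    have hk : s ∈ Kp L x R := by
      by_contra hk
      exact hs1 (lz_hole hsR hk)
    obtain ⟨⟨l, r, h2, h3⟩, -⟩ := lz_kept hBR hk
    rw [Finset.mem_union]
    by_cases hav : Av x (.node s l r)
    · right
      rw [Finset.mem_filter, hP, Finset.mem_filter]
      refine ⟨⟨hs0, fun h4 => ?_⟩, hk⟩
      obtain ⟨l', r', h5⟩ := exists_sb (T := L) (s := s) (by rw [hL]; exact hmem s hs0)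
      refine h3 ⟨.node s l' r', h5, ?_, hav⟩
      rw [← blk_eq hBL h5, ← blk_eq hBR h2]
      exact h4
    · left
      unfold Anc
      rw [Finset.mem_filter]
      exact ⟨hs0, l, r, h2, hav⟩
  have h2 : (Finset.Ioo 0 n).filter (fun s => blk s (lz L x R) ≠ blk s R) ⊆
      P.filter (fun s => s ∉ Kp L x R) := by
    intro s hs
    rw [Finset.mem_filter] at hs
    obtain ⟨hs0, hs1⟩ := hs
    have hsR : s ∈ inorder R := by rw [hR]; exact hmem s hs0
    have hk : s ∉ Kp L x R := fun hk => hs1 (lz_kept hBR hk).2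
    obtain ⟨l, r, h3, h4, -⟩ := lz_hole hsR hk
    rw [Finset.mem_filter, hP, Finset.mem_filter]
    refine ⟨⟨hs0, ?_⟩, hk⟩
    rw [blk_eq hBL h3, ← blk_eq hBz h4]
    exact hs1
  have h3 := Finset.card_le_card h1
  have h4 := Finset.card_le_card h2
  have h5 := Finset.card_union_le (Anc n R x) (P.filter (fun s => s ∈ Kp L x R))
  have h6 := Finset.card_filter_add_card_filter_not (s := P) (fun s => s ∈ Kp L x R)
  have h7 : Psi n (lz L x R) R =
      ((Finset.Ioo 0 n).filter (fun s => blk s (lz L x R) ≠ blk s R)).card := by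
    unfold Psi
    congr
  have h8 : Psi n L R = P.card := by
    unfold Psi
    rw [hP]
  rw [h7, h8]
  omega

/-! ## Module LI

Induction on `Exec T X c`, generalizing `L0`.  `nil`: `L t = L0`.  `cons`: with
`L1 = lz L0 x (gt T)` apply the induction hypothesis to `T'` and `L1`:
`card U + Psi L1 (gt T) ≤ 2 (depth + 1) + Psi L0 (gt T)` (`lz_step`, `anc_gt`) and
`Psi L1 (gt T') ≤ Psi L1 (gt T) + 4 e` (`psi_rot`). -/

theorem lazy_run {n : ℕ} (hn : 0 < n) {T : BinaryTree ℕ} {X : List ℕ} {c : ℕ} (hE : Exec T X c)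
    (hT : inorder T = List.range' 1 n) (hX : ∀ x ∈ X, x ∈ inorder T) (L0 : BinaryTree ℕ)
    (hL : inorder L0 = List.range' 1 (n - 1)) :
    ∃ L : ℕ → BinaryTree ℕ, L 0 = L0 ∧ (∀ t, inorder (L t) = List.range' 1 (n - 1)) ∧
      ∑ t ∈ Finset.range X.length, (U n (L t) (L (t + 1)) (X.getD t 0)).card ≤
        4 * c + Psi n L0 (gt T) := by
  induction hE generalizing L0 with
  | nil T =>
    exact ⟨fun _ => L0, rfl, fun _ => hL, by simp⟩
  | @cons T T' x X e c hrot hE ih =>
    obtain ⟨k, rfl⟩ : ∃ k, n = k + 1 := ⟨n - 1, by omega⟩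
    have hG : inorder (gt T) = List.range' 1 (k + 1 - 1) := gt_inorder (k := k) one_pos hT
    have hT' : inorder T' = List.range' 1 (k + 1) := by rw [← rotSeq_inorder hrot, hT]
    have hX' : ∀ y ∈ X, y ∈ inorder T' := by
      intro y hy
      rw [← rotSeq_inorder hrot]
      exact hX y (List.mem_cons_of_mem _ hy)
    have hL1 : inorder (lz L0 x (gt T)) = List.range' 1 (k + 1 - 1) := by
      rw [lz_inorder, hG]
    obtain ⟨L, h0, h1, h2⟩ := ih hT' hX' (lz L0 x (gt T)) hL1
    refine ⟨fun t => Nat.casesOn t L0 (fun t => L t), rfl, fun t => ?_, ?_⟩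
    · cases t with
      | zero => exact hL
      | succ t => exact h1 t
    · rw [List.length_cons, Finset.sum_range_succ']
      have h3 : ∀ t, (U (k + 1) ((fun t => Nat.casesOn t L0 (fun t => L t) : ℕ → BinaryTree ℕ) (t + 1))
          ((fun t => Nat.casesOn t L0 (fun t => L t) : ℕ → BinaryTree ℕ) (t + 1 + 1))
          ((x :: X).getD (t + 1) 0)).card = (U (k + 1) (L t) (L (t + 1)) (X.getD t 0)).card := by
        intro t
        rw [List.getD_cons_succ]
      have h4 : (U (k + 1) ((fun t => Nat.casesOn t L0 (fun t => L t) : ℕ → BinaryTree ℕ) 0)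
          ((fun t => Nat.casesOn t L0 (fun t => L t) : ℕ → BinaryTree ℕ) (0 + 1))
          ((x :: X).getD 0 0)).card = (U (k + 1) L0 (lz L0 x (gt T)) x).card := by
        rw [List.getD_cons_zero]
        show (U (k + 1) L0 (L 0) x).card = _
        rw [h0]
      rw [Finset.sum_congr rfl fun t _ => h3 t, h4]
      have h5 := lz_step (n := k + 1) (L := L0) (R := gt T) x hL hG
      have h6 := anc_gt (n := k + 1) (T := T) (a := 1) (k := k) one_pos hT
        (hX x List.mem_cons_self)
      have h7 := psi_rot (n := k + 1) hrot (a := 1) (k := k) one_pos hT (lz L0 x (gt T))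
      omega

end Pool.Agent.SplLow
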