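import Pool.Agent.SplLow.Lz
import Pool.Agent.SplLow.Low
import Pool.Agent.SplPl.Defs
import Pool.Agent.SplAll.Red

set_option autoImplicit false

/-!
# From trees to block processes; height reduction
-/

namespace Pool.Agent.SplLow

open BinaryTree Pool.Agent.MP_c42954_lc.Scan Pool.Agent.SplLog Pool.Agent.SplPl Pool.Agent.SplAll

/-- A block process without a run (the fields of `Blk`). -/
structure BB (n m : ℕ) (X : ℕ → ℕ) where
  /-- the maximal height of the inner gaps -/
  H : ℕ
  /-- the heights of the gaps -/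
  om : ℕ → ℕ → ℕ
  /-- the touched gaps -/
  tau : ℕ → Finset ℕ
  om_le : ∀ t, t ≤ m → ∀ s, 0 < s → s < n → om t s ≤ H
  om_zero : ∀ t, t ≤ m → om t 0 = H + 1
  om_last : ∀ t, t ≤ m → om t n = H + 1
  uniq : ∀ t, t ≤ m → ∀ s s', s < s' → s' ≤ n → om t s = om t s' →
    (s = 0 ∧ s' = n) ∨ ∃ r, s < r ∧ r < s' ∧ om t s < om t r
  tau_le : ∀ t, t < m → ∀ s ∈ tau t, s ≤ n
  tau_zero : ∀ t, t < m → 0 ∈ tau t
  tau_last : ∀ t, t < m → n ∈ tau t
  tau_X : ∀ t, t < m → X t - 1 ∈ tau t ∧ X t ∈ tau t
  keep : ∀ t, t < m → ∀ s, s ≤ n → s ∉ tau t → om (t + 1) s = om t s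
  hole : ∀ t, t < m → ∀ s, s ≤ n → s ∉ tau t → ∀ r ∈ tau t,
    (∀ q, (s < q ∧ q < r) ∨ (r < q ∧ q < s) → q ∉ tau t) →
    om t s < om t r ∧ om (t + 1) s < om (t + 1) r

/-- The number of touched gaps. -/
def BB.tot {n m : ℕ} {X : ℕ → ℕ} (B : BB n m X) : ℕ := ∑ t ∈ Finset.range m, (B.tau t).card

theorem BB.toBlk {n : ℕ} {S : Sys} {X : ℕ → ℕ} (B : BB n S.m X) (hn : S.top = n + 1)
    (hX : ∀ t, t < S.m → S.X t = X t) : ∃ B' : Blk S, B'.H = B.H ∧ B'.tot = B.tot := by
  have e : S.top - 1 = n := by omega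
  refine ⟨{
    H := B.H
    om := B.om
    tau := B.tau
    om_le := fun t ht s h1 h2 => B.om_le t ht s h1 (by omega)
    om_zero := B.om_zero
    om_last := fun t ht => by rw [e]; exact B.om_last t ht
    uniq := fun t ht s s' h1 h2 h3 => by
      rcases B.uniq t ht s s' h1 (by omega) h3 with h | h
      · exact Or.inl ⟨h.1, by omega⟩
      · exact Or.inr h
    tau_lt := fun t ht s hs => by have := B.tau_le t ht s hs; omega
    tau_zero := B.tau_zero
    tau_last := fun t ht => by rw [e]; exact B.tau_last t ht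
    tau_X := fun t ht => by rw [hX t ht]; exact B.tau_X t ht
    keep := fun t ht s hs h => B.keep t ht s (by omega) h
    hole := fun t ht s hs h => B.hole t ht s (by omega) h }, rfl, rfl⟩

/-! ## From trees to block processes -/

theorem bst_of_range {n : ℕ} {G : BinaryTree ℕ} (hG : inorder G = List.range' 1 (n - 1)) :
    IsBST G := by
  unfold IsBST
  rw [hG]
  exact List.pairwise_lt_range'

theorem mem_of_range {n : ℕ} {G : BinaryTree ℕ} (hG : inorder G = List.range' 1 (n - 1)) (s : ℕ) :
    s ∈ inorder G ↔ 0 < s ∧ s < n := by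
  rw [hG, List.mem_range'_1]
  omega

theorem Cm.symm {G G' : BinaryTree ℕ} {x s : ℕ} (h : Cm G G' x s) : Cm G' G x s := by
  obtain ⟨l, r, h1, h2, h3⟩ := h
  exact ⟨l, r, h2, h1, h3⟩

theorem Cm.down {G G' : BinaryTree ℕ} (hG : IsBST G) {x c s : ℕ} (h : Cm G G' x c)
    {l r : BinaryTree ℕ} (h1 : Sb (.node c l r) G) (hs : s ∈ inorder (.node c l r)) :
    Cm G G' x s := by
  obtain ⟨l', r', h2, h3, h4⟩ := h
  obtain ⟨rfl, rfl⟩ := Sb.unique hG h1 h2
  obtain ⟨l2, r2, h5⟩ := exists_sb hs
  exact ⟨l2, r2, h5.trans h2, h5.trans h3, h5.avoid h4⟩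

private theorem LC_hole {n : ℕ} {G G' : BinaryTree ℕ} (hG : inorder G = List.range' 1 (n - 1))
    {x s r : ℕ} (hs : 0 < s ∧ s < n) (hr : 0 < r ∧ r < n) (h1 : Cm G G' x s) (h2 : ¬ Cm G G' x r)
    (h3 : ∀ q, (s < q ∧ q < r) ∨ (r < q ∧ q < s) → 0 < q → q < n → Cm G G' x q) :
    ht s G < ht r G := by
  have hb := bst_of_range hG
  have key : ∀ c l r', Sb (.node c l r') G → (s ≤ c ∧ c ≤ r ∨ r ≤ c ∧ c ≤ s) →
      s ∈ inorder (.node c l r') → r ∈ inorder (.node c l r') → ht s G < ht r G := by
    intro c l r' hc hsc h4 h5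
    have hsr : s ≠ r := by
      rintro rfl
      exact h2 h1
    have hcm : c ∈ inorder G := hc.mem (root_mem c l r')
    rw [mem_of_range hG] at hcm
    by_cases e1 : c = s
    · subst e1
      exact absurd (h1.down hb hc h5) h2
    by_cases e2 : c = r
    · subst e2
      exact ht_lt hb hc h4 hsr
    exact absurd ((h3 c (by omega) hcm.1 hcm.2).down hb hc h5) h2
  rcases lt_trichotomy s r with h | h | h
  · obtain ⟨c, l, r', hc, h4, h5, h6, h7⟩ :=
      lca hb ((mem_of_range hG s).2 hs) ((mem_of_range hG r).2 hr) h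
    exact key c l r' hc (Or.inl ⟨h4, h5⟩) h6 h7
  · subst h
    exact absurd h1 h2
  · obtain ⟨c, l, r', hc, h4, h5, h6, h7⟩ :=
      lca hb ((mem_of_range hG r).2 hr) ((mem_of_range hG s).2 hs) h
    exact key c l r' hc (Or.inr ⟨h4, h5⟩) h7 h6

private theorem LC_mem_U {n : ℕ} {G G' : BinaryTree ℕ} {x s : ℕ} :
    s ∈ U n G G' x ∪ {0, n} ↔ (0 < s ∧ s < n ∧ ¬ Cm G G' x s) ∨ s = 0 ∨ s = n := by
  classical
  unfold U
  simp only [Finset.mem_union, Finset.mem_filter, Finset.mem_Ioo, Finset.mem_insert,
    Finset.mem_singleton]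
  tauto

/-- A sequence of trees of bounded height is a block process. -/
theorem mk_bb {n m H : ℕ} {X : ℕ → ℕ} (hX : ∀ t, t < m → 0 < X t ∧ X t ≤ n)
    (G : ℕ → BinaryTree ℕ)
    (hG : ∀ t, inorder (G t) = List.range' 1 (n - 1)) (hH : ∀ t, (G t).height ≤ H) :
    ∃ B : BB n m X, B.H = H ∧
      B.tot ≤ ∑ t ∈ Finset.range m, (U n (G t) (G (t + 1)) (X t)).card + 2 * m := by
  classical
  have hb : ∀ t, IsBST (G t) := fun t => bst_of_range (hG t)
  have hle : ∀ t s, ht s (G t) ≤ H := fun t s => (ht_le s (G t)).trans (hH t)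
  let om : ℕ → ℕ → ℕ := fun t s => if s = 0 ∨ s = n then H + 1 else ht s (G t)
  have om0 : ∀ t s, (s = 0 ∨ s = n) → om t s = H + 1 := fun t s h => if_pos h
  have om1 : ∀ t s, ¬ (s = 0 ∨ s = n) → om t s = ht s (G t) := fun t s h => if_neg h
  let tau : ℕ → Finset ℕ := fun t => U n (G t) (G (t + 1)) (X t) ∪ {0, n}
  have mt : ∀ t s, s ∈ tau t ↔
      (0 < s ∧ s < n ∧ ¬ Cm (G t) (G (t + 1)) (X t) s) ∨ s = 0 ∨ s = n := fun t s => LC_mem_U
  refine ⟨{
    H := H
    om := om
    tau := tau
    om_le := ?_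
    om_zero := ?_
    om_last := ?_
    uniq := ?_
    tau_le := ?_
    tau_zero := ?_
    tau_last := ?_
    tau_X := ?_
    keep := ?_
    hole := ?_ }, rfl, ?_⟩
  · intro t _ s h1 h2
    rw [om1 t s (by omega)]
    exact hle t s
  · intro t _
    exact om0 t 0 (Or.inl rfl)
  · intro t _
    exact om0 t _ (Or.inr rfl)
  · intro t _ s s' h1 h2 h3
    by_cases e : s = 0
    · left
      refine ⟨e, ?_⟩
      by_contra h
      rw [om0 t s (Or.inl e), om1 t s' (by omega)] at h3
      have := hle t s'
      omega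
    · right
      rw [om1 t s (by omega)] at h3
      by_cases e' : s' = n
      · rw [om0 t s' (Or.inr e')] at h3
        have := hle t s
        omega
      rw [om1 t s' (by omega)] at h3
      obtain ⟨c, l, r', hc, h4, h5, h6, h7⟩ := lca (hb t) ((mem_of_range (hG t) s).2 (by omega))
        ((mem_of_range (hG t) s').2 (by omega)) h1
      have hcm : c ∈ inorder (G t) := hc.mem (root_mem c l r')
      rw [mem_of_range (hG t)] at hcm
      have hcs : c ≠ s := by
        rintro rfl
        have := ht_lt (hb t) hc h7 (by omega)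
        omega
      have hcs' : c ≠ s' := by
        rintro rfl
        have := ht_lt (hb t) hc h6 (by omega)
        omega
      refine ⟨c, by omega, by omega, ?_⟩
      rw [om1 t s (by omega), om1 t c (by omega)]
      exact ht_lt (hb t) hc h6 (Ne.symm hcs)
  · intro t _ s hs
    rw [mt] at hs
    omega
  · intro t _
    rw [mt]
    exact Or.inr (Or.inl rfl)
  · intro t _
    rw [mt]
    exact Or.inr (Or.inr rfl)
  · intro t ht'
    have h1 := hX t ht'
    constructor
    · rw [mt]
      by_cases e : X t - 1 = 0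
      · exact Or.inr (Or.inl e)
      left
      refine ⟨by omega, by omega, ?_⟩
      rintro ⟨l, r, _, _, h2⟩
      exact h2.2 (root_mem _ l r)
    · rw [mt]
      by_cases e : X t = n
      · exact Or.inr (Or.inr e)
      left
      refine ⟨by omega, by omega, ?_⟩
      rintro ⟨l, r, _, _, h2⟩
      exact h2.1 (root_mem _ l r)
  · intro t _ s hs h
    rw [mt] at h
    have h1 : ¬ (s = 0 ∨ s = n) := fun h' => h (Or.inr h')
    have h2 : Cm (G t) (G (t + 1)) (X t) s := by
      by_contra h'
      exact h (Or.inl ⟨by omega, by omega, h'⟩)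
    obtain ⟨l, r, h3, h4, _⟩ := h2
    rw [om1 t s h1, om1 (t + 1) s h1, ht_eq (hb t) h3, ht_eq (hb (t + 1)) h4]
  · intro t _ s hs h r hr hq
    rw [mt] at h hr
    have h1 : ¬ (s = 0 ∨ s = n) := fun h' => h (Or.inr h')
    have h2 : Cm (G t) (G (t + 1)) (X t) s := by
      by_contra h'
      exact h (Or.inl ⟨by omega, by omega, h'⟩)
    by_cases e : r = 0 ∨ r = n
    · rw [om0 t r e, om0 (t + 1) r e, om1 t s h1, om1 (t + 1) s h1]
      have := hle t s
      have := hle (t + 1) s
      omega
    · have hr' : 0 < r ∧ r < n ∧ ¬ Cm (G t) (G (t + 1)) (X t) r := by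
        rcases hr with h' | h'
        · exact h'
        · exact absurd h' e
      have h3 : ∀ q, (s < q ∧ q < r) ∨ (r < q ∧ q < s) → 0 < q → q < n →
          Cm (G t) (G (t + 1)) (X t) q := by
        intro q h4 h5 h6
        by_contra h'
        exact hq q h4 ((mt t q).2 (Or.inl ⟨h5, h6, h'⟩))
      rw [om1 t s h1, om1 (t + 1) s h1, om1 t r e, om1 (t + 1) r e]
      refine ⟨LC_hole (hG t) (by omega) ⟨hr'.1, hr'.2.1⟩ h2 hr'.2.2 h3,
        LC_hole (hG (t + 1)) (by omega) ⟨hr'.1, hr'.2.1⟩ h2.symm (fun h' => hr'.2.2 h'.symm)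
          (fun q h4 h5 h6 => (h3 q h4 h5 h6).symm)⟩
  · change ∑ t ∈ Finset.range m, (tau t).card ≤ _
    have h1 : ∀ t ∈ Finset.range m,
        (tau t).card ≤ (U n (G t) (G (t + 1)) (X t)).card + 2 := by
      intro t _
      exact (Finset.card_union_le _ _).trans (Nat.add_le_add_left Finset.card_le_two _)
    refine (Finset.sum_le_sum h1).trans ?_
    rw [Finset.sum_add_distrib, Finset.sum_const, Finset.card_range, smul_eq_mul, mul_comm m 2]

theorem numNodes_eq (T : BinaryTree ℕ) : T.numNodes = (inorder T).length := by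
  induction T with
  | nil => rfl
  | node a l r ihl ihr =>
    simp only [BinaryTree.numNodes, inorder, List.length_append, List.length_cons, ihl, ihr]
    omega

/-- Height reduction for the keys `1, .., n`. -/
theorem low_bb {n m : ℕ} {T : BinaryTree ℕ} {X : List ℕ} {c : ℕ} (hE : Exec T X c)
    (hT : inorder T = List.range' 1 n) (hX : ∀ x ∈ X, x ∈ inorder T) (hm : m = X.length) :
    ∃ B : BB n m (fun t => X.getD t 0),
      B.H = Nat.log 2 n * (4 * Nat.log 2 n + 4) ∧ B.tot ≤ 40 * c + 2 * m := by
  subst hm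
  rcases Nat.eq_zero_or_pos n with rfl | hn
  · have hX0 : X = [] := by
      rcases X with _ | ⟨x, X⟩
      · rfl
      · have := hX x List.mem_cons_self
        rw [hT] at this
        simp at this
    subst hX0
    obtain ⟨B, hB1, hB2⟩ := mk_bb (n := 0) (m := ([] : List ℕ).length)
      (X := fun t => ([] : List ℕ).getD t 0) (H := 0) (by simp) (fun _ => .nil) (fun _ => rfl)
      (fun _ => le_rfl)
    exact ⟨B, by rw [hB1]; simp, hB2.trans (by simp)⟩
  have h0 : inorder (gt T) = List.range' 1 (n - 1) :=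
    gt_inorder one_pos (by rw [hT]; congr 1; omega)
  obtain ⟨L, hL0, hL, hs⟩ := lazy_run hn hE hT hX (gt T) h0
  have hnum : ∀ t, (L t).numNodes + 1 = n := by
    intro t
    rw [numNodes_eq, hL t, List.length_range']
    omega
  have hX' : ∀ t, t < X.length → 0 < X.getD t 0 ∧ X.getD t 0 ≤ n := by
    intro t ht'
    rw [List.getD_eq_getElem _ _ ht']
    have h1 := hX _ (List.getElem_mem ht')
    rw [hT, List.mem_range'_1] at h1
    omega
  obtain ⟨B, hB1, hB2⟩ := mk_bb (H := Nat.log 2 n * (4 * Nat.log 2 n + 4)) hX'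
    (fun t => low (L t)) (fun t => by rw [low_inorder]; exact hL t) (fun t => by
      have := low_height (S := L t) (L0 := Nat.log 2 n) (by rw [hnum])
      rwa [hnum] at this)
  refine ⟨B, hB1, hB2.trans (Nat.add_le_add_right ?_ _)⟩
  have hpsi : Psi n (gt T) (gt T) = 0 := by
    unfold Psi
    simp
  rw [hpsi, add_zero] at hs
  calc ∑ t ∈ Finset.range X.length, (U n (low (L t)) (low (L (t + 1))) (X.getD t 0)).card
      ≤ ∑ t ∈ Finset.range X.length, 10 * (U n (L t) (L (t + 1)) (X.getD t 0)).card :=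
        Finset.sum_le_sum fun t _ => low_card _ (hL t) (hL (t + 1))
    _ = 10 * ∑ t ∈ Finset.range X.length, (U n (L t) (L (t + 1)) (X.getD t 0)).card := by
        rw [Finset.mul_sum]
    _ ≤ 40 * c := by omega

/-! ## Restriction to a set of keys -/

/-- The image of a block process under a monotone map of the gaps. -/
theorem BB.push {n u m : ℕ} {X X' : ℕ → ℕ} (B : BB n m X) {f : ℕ → ℕ} (hf : Monotone f)
    (h0 : f 0 = 0) (hu : f n = u) (hs : ∀ s, f (s + 1) ≤ f s + 1)
    (hX : ∀ t, t < m → X t ≤ n ∧ f (X t - 1) = X' t - 1 ∧ f (X t) = X' t) :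
    ∃ B' : BB u m X', B'.H = B.H ∧ B'.tot ≤ B.tot := by
  classical
  let om : ℕ → ℕ → ℕ := fun t i => ((Finset.range (n + 1)).filter (fun s => f s = i)).sup (B.om t)
  let tau : ℕ → Finset ℕ := fun t => (B.tau t).image f
  have le : ∀ t s, s ≤ n → B.om t s ≤ om t (f s) := by
    intro t s h
    exact Finset.le_sup (f := B.om t) (Finset.mem_filter.2 ⟨Finset.mem_range.2 (by omega), rfl⟩)
  have sur : ∀ i, i ≤ u → ∃ s, s ≤ n ∧ f s = i := by
    intro i hi
    have key : ∀ k, k ≤ n → ∀ j, j ≤ f k → ∃ s, s ≤ k ∧ f s = j := by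
      intro k
      induction k with
      | zero =>
        intro _ j hj
        exact ⟨0, le_rfl, by omega⟩
      | succ k ih =>
        intro hk j hj
        by_cases e : j = f (k + 1)
        · exact ⟨k + 1, le_rfl, e.symm⟩
        · have := hs k
          obtain ⟨s, h1, h2⟩ := ih (by omega) j (by omega)
          exact ⟨s, by omega, h2⟩
    exact key n le_rfl i (by omega)
  have ex : ∀ t i, i ≤ u → ∃ s, s ≤ n ∧ f s = i ∧ om t i = B.om t s := by
    intro t i hi
    obtain ⟨s0, h1, h2⟩ := sur i hi
    obtain ⟨s, h3, h4⟩ := Finset.exists_mem_eq_sup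
      ((Finset.range (n + 1)).filter (fun s => f s = i))
      ⟨s0, Finset.mem_filter.2 ⟨Finset.mem_range.2 (by omega), h2⟩⟩ (B.om t)
    rw [Finset.mem_filter, Finset.mem_range] at h3
    exact ⟨s, by omega, h3.2, h4⟩
  have omH : ∀ t, t ≤ m → ∀ s, s ≤ n → B.om t s ≤ B.H + 1 := by
    intro t ht' s h
    rcases Nat.eq_zero_or_pos s with rfl | h1
    · exact (B.om_zero t ht').le
    · rcases h.lt_or_eq with h2 | rfl
      · exact (B.om_le t ht' s h1 h2).trans (Nat.le_succ _)
      · exact (B.om_last t ht').le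
  have mono : ∀ a b, f a < f b → a < b := by
    intro a b h
    by_contra h'
    have := hf (Nat.le_of_not_lt h')
    omega
  -- the nearest touched gap
  have near : ∀ t, t < m → ∀ s, s ≤ n → f s ∉ tau t → ∀ j ∈ tau t,
      (∀ q, (f s < q ∧ q < j) ∨ (j < q ∧ q < f s) → q ∉ tau t) →
      ∃ r ∈ B.tau t, f r = j ∧ (∀ q, (s < q ∧ q < r) ∨ (r < q ∧ q < s) → q ∉ B.tau t) := by
    intro t ht' s hs' h1 j hj h2
    obtain ⟨r0, hr0, rfl⟩ := Finset.mem_image.1 hj
    have hne : f s ≠ f r0 := by
      intro e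
      exact h1 (e ▸ hj)
    rcases lt_or_gt_of_ne hne with h | h
    · have hlt := mono _ _ h
      obtain ⟨r, hr, hmin⟩ := Finset.exists_min_image ((B.tau t).filter (fun r => s < r)) id
        ⟨r0, Finset.mem_filter.2 ⟨hr0, hlt⟩⟩
      rw [Finset.mem_filter] at hr
      have h3 : r ≤ r0 := hmin r0 (Finset.mem_filter.2 ⟨hr0, hlt⟩)
      refine ⟨r, hr.1, ?_, ?_⟩
      · have h4 := hf h3
        have h5 := hf hr.2.le
        have h6 : f r ∈ tau t := Finset.mem_image_of_mem _ hr.1
        by_contra h7
        rcases h5.lt_or_eq with h8 | h8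
        · exact h2 (f r) (Or.inl ⟨h8, by omega⟩) h6
        · exact h1 (h8 ▸ h6)
      · intro q hq hq'
        rcases hq with hq | hq
        · have := hmin q (Finset.mem_filter.2 ⟨hq', hq.1⟩)
          simp only [id] at this
          omega
        · omega
    · have hlt := mono _ _ h
      obtain ⟨r, hr, hmax⟩ := Finset.exists_max_image ((B.tau t).filter (fun r => r < s)) id
        ⟨r0, Finset.mem_filter.2 ⟨hr0, hlt⟩⟩
      rw [Finset.mem_filter] at hr
      have h3 : r0 ≤ r := hmax r0 (Finset.mem_filter.2 ⟨hr0, hlt⟩)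
      refine ⟨r, hr.1, ?_, ?_⟩
      · have h4 := hf h3
        have h5 := hf hr.2.le
        have h6 : f r ∈ tau t := Finset.mem_image_of_mem _ hr.1
        by_contra h7
        rcases h5.lt_or_eq with h8 | h8
        · exact h2 (f r) (Or.inr ⟨by omega, h8⟩) h6
        · exact h1 (h8 ▸ h6)
      · intro q hq hq'
        rcases hq with hq | hq
        · omega
        · have := hmax q (Finset.mem_filter.2 ⟨hq', hq.2⟩)
          simp only [id] at this
          omega
  refine ⟨{
    H := B.H
    om := om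
    tau := tau
    om_le := ?_
    om_zero := ?_
    om_last := ?_
    uniq := ?_
    tau_le := ?_
    tau_zero := ?_
    tau_last := ?_
    tau_X := ?_
    keep := ?_
    hole := ?_ }, rfl, ?_⟩
  · intro t ht' i h1 h2
    obtain ⟨s, h3, h4, h5⟩ := ex t i (by omega)
    rw [h5]
    have h6 : s ≠ 0 := by
      rintro rfl
      omega
    have h7 : s ≠ n := by
      rintro rfl
      omega
    exact B.om_le t ht' s (by omega) (by omega)
  · intro t ht'
    obtain ⟨s, h3, h4, h5⟩ := ex t 0 (by omega)
    have h6 := le t 0 (by omega)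
    rw [h0, B.om_zero t ht'] at h6
    have h7 := omH t ht' s h3
    omega
  · intro t ht'
    obtain ⟨s, h3, h4, h5⟩ := ex t u le_rfl
    have h6 := le t n le_rfl
    rw [hu, B.om_last t ht'] at h6
    have h7 := omH t ht' s h3
    omega
  · intro t ht' i i' h1 h2 h3
    obtain ⟨s, g1, g2, g3⟩ := ex t i (by omega)
    obtain ⟨s', g4, g5, g6⟩ := ex t i' h2
    have hss : s < s' := mono _ _ (by omega)
    rcases B.uniq t ht' s s' hss g4 (by omega) with h | ⟨r, h4, h5, h6⟩
    · left
      constructor
      · rw [← g2, h.1, h0]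
      · rw [← g5, h.2, hu]
    · right
      have h7 := le t r (by omega)
      have h8 := hf h4.le
      have h9 := hf h5.le
      refine ⟨f r, ?_, ?_, by omega⟩
      · rcases (g2 ▸ h8).lt_or_eq with h | h
        · exact h
        · rw [← h] at h7
          omega
      · rcases (g5 ▸ h9).lt_or_eq with h | h
        · exact h
        · rw [h] at h7
          omega
  · intro t ht' i hi
    obtain ⟨s, h1, rfl⟩ := Finset.mem_image.1 hi
    rw [← hu]
    exact hf (B.tau_le t ht' s h1)
  · intro t ht'
    rw [← h0]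
    exact Finset.mem_image_of_mem _ (B.tau_zero t ht')
  · intro t ht'
    rw [← hu]
    exact Finset.mem_image_of_mem _ (B.tau_last t ht')
  · intro t ht'
    obtain ⟨_, h1, h2⟩ := hX t ht'
    rw [← h1]
    constructor
    · exact Finset.mem_image_of_mem _ (B.tau_X t ht').1
    · rw [← h2]
      exact Finset.mem_image_of_mem _ (B.tau_X t ht').2
  · intro t ht' i _ h
    refine Finset.sup_congr rfl fun s hs' => ?_
    rw [Finset.mem_filter, Finset.mem_range] at hs'
    refine B.keep t ht' s (by omega) fun h1 => h ?_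
    rw [← hs'.2]
    exact Finset.mem_image_of_mem _ h1
  · intro t ht' i hi h j hj hq
    constructor
    · obtain ⟨s, g1, g2, g3⟩ := ex t i hi
      subst g2
      obtain ⟨r, h1, h2, h3⟩ := near t ht' s g1 h j hj hq
      rw [g3, ← h2]
      have h4 := B.hole t ht' s g1 (fun h' => h (Finset.mem_image_of_mem _ h')) r h1 h3
      exact lt_of_lt_of_le h4.1 (le t r (B.tau_le t ht' r h1))
    · obtain ⟨s, g1, g2, g3⟩ := ex (t + 1) i hi
      subst g2
      obtain ⟨r, h1, h2, h3⟩ := near t ht' s g1 h j hj hq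
      rw [g3, ← h2]
      have h4 := B.hole t ht' s g1 (fun h' => h (Finset.mem_image_of_mem _ h')) r h1 h3
      exact lt_of_lt_of_le h4.2 (le (t + 1) r (B.tau_le t ht' r h1))
  · exact Finset.sum_le_sum fun t _ => Finset.card_image_le

/-! ## Relabelling -/

theorem rot_map {f : ℕ → ℕ} {T T' : BinaryTree ℕ} (h : Rot T T') : Rot (mapT f T) (mapT f T') := by
  induction h with
  | atLeftChild a b A B C => exact Rot.atLeftChild _ _ _ _ _
  | atRightChild a b A B C => exact Rot.atRightChild _ _ _ _ _
  | inLeft c r _ ih => exact Rot.inLeft _ _ ih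
  | inRight c l _ ih => exact Rot.inRight _ _ ih

theorem rotSeq_map {f : ℕ → ℕ} {e : ℕ} {T T' : BinaryTree ℕ} (h : RotSeq e T T') :
    RotSeq e (mapT f T) (mapT f T') := by
  induction h with
  | refl T => exact RotSeq.refl _
  | step h _ ih => exact RotSeq.step (rot_map h) ih

theorem exec_map {f : ℕ → ℕ} {T : BinaryTree ℕ} {X : List ℕ} {c : ℕ} (hE : Exec T X c)
    (hf : ∀ x ∈ X, Mono f x (inorder T)) : Exec (mapT f T) (X.map f) c := by
  induction hE with
  | nil T => exact Exec.nil _
  | @cons T T' x X e c hr _ ih =>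
    have h1 := ih (fun y hy => by
      rw [← rotSeq_inorder hr]
      exact hf y (List.mem_cons_of_mem _ hy))
    have h2 := Exec.cons (x := f x) (rotSeq_map (f := f) hr) h1
    rwa [mapT_depth (hf x List.mem_cons_self)] at h2

theorem rk_mono (U : Finset ℕ) : Monotone (rk U) := by
  intro a b hab
  apply Finset.card_le_card
  intro v hv
  rw [Finset.mem_filter] at hv ⊢
  exact ⟨hv.1, by omega⟩

/-- A strictly increasing list of naturals, mapped to its ranks. -/
theorem rank_map {K : List ℕ} (hK : K.Pairwise (· < ·)) :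
    K.map (fun v => rk K.toFinset v + 1) = List.range' 1 K.length := by
  have hmono : ∀ i j (hi : i < K.length) (hj : j < K.length), i < j → K[i] < K[j] :=
    fun i j hi hj hij => List.pairwise_iff_getElem.1 hK i j hi hj hij
  apply List.ext_getElem
  · simp
  · intro i h1 h2
    rw [List.length_map] at h1
    rw [List.getElem_map, List.getElem_range']
    have e : rk K.toFinset K[i] = i := by
      unfold SplAll.rk
      have e1 : K.toFinset.filter (fun u => u < K[i]) = (K.take i).toFinset := by
        ext u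
        rw [Finset.mem_filter, List.mem_toFinset, List.mem_toFinset, List.mem_take_iff_getElem]
        constructor
        · rintro ⟨h3, h4⟩
          obtain ⟨j, hj, rfl⟩ := List.getElem_of_mem h3
          refine ⟨j, ?_, rfl⟩
          by_contra h5
          rcases Nat.lt_or_ge i j with h6 | h6
          · have := hmono i j h1 hj h6
            omega
          · have : i = j := by omega
            subst this
            omega
        · rintro ⟨j, hj, rfl⟩
          refine ⟨List.getElem_mem _, hmono j i (by omega) h1 (by omega)⟩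
      rw [e1, List.toFinset_card_of_nodup, List.length_take]
      · omega
      · exact (List.Pairwise.imp (fun h => Nat.ne_of_lt h) hK).take
    simp only [e]
    omega

/-- **Height reduction.**  Every execution of cost `c` gives, for every set `V` of keys which
contains the requests, a block process on the keys of `V` with heights at most
`4 log n (log n + 1)` and at most `40 c + 2 m` touched gaps. -/
theorem low_blkU {T : BinaryTree ℕ} {X : List ℕ} {c : ℕ} (hb : IsBST T) (hE : Exec T X c)
    {V : Finset ℕ} (hV : V ⊆ (inorder T).toFinset) (hX : ∀ x ∈ X, x ∈ V) {S : Sys}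
    (hm : S.m = X.length) (htop : S.top = V.card + 1)
    (hSX : ∀ t, t < S.m → S.X t = rk V (X.getD t 0) + 1) :
    ∃ B : Blk S,
      B.H = Nat.log 2 (inorder T).length * (4 * Nat.log 2 (inorder T).length + 4) ∧
      B.tot ≤ 40 * c + 2 * S.m := by
  classical
  set n := (inorder T).length with hn
  set K := (inorder T).toFinset with hK
  have hKc : K.card = n := by
    rw [hK, List.toFinset_card_of_nodup]
    exact List.Pairwise.imp (fun h => Nat.ne_of_lt h) hb
  let g : ℕ → ℕ := fun v => rk K v + 1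
  have hgm : ∀ v w, v ∈ K → v < w → g v < g w := by
    intro v w hv h
    have := RED_rk_lt hv h
    simp only [g]
    omega
  have hgn : ∀ v, v ∈ K → g v ≤ n := by
    intro v hv
    have := RED_rk_card hv
    simp only [g]
    omega
  have hgV : ∀ v ∈ V, ∀ w ∈ V, (g v < g w ↔ v < w) := by
    intro v hv w hw
    rcases lt_trichotomy v w with h | h | h
    · have := hgm v w (hV hv) h
      exact ⟨fun _ => h, fun _ => this⟩
    · subst h
      simp
    · have := hgm w v (hV hw) h
      constructor <;> intro h' <;> omega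
  have hX0 : ∀ x ∈ X, x ∈ inorder T := fun x hx => List.mem_toFinset.1 (hV (hX x hx))
  have hT1 : inorder (mapT g T) = List.range' 1 n := by
    rw [mapT_inorder]
    exact rank_map hb
  have hE1 : Exec (mapT g T) (X.map g) c := by
    refine exec_map hE fun x hx a ha => ⟨fun h => hgm _ _ ?_ h, fun h => hgm _ _ ?_ h⟩
    · exact List.mem_toFinset.2 (hX0 x hx)
    · exact List.mem_toFinset.2 ha
  have hX1 : ∀ y ∈ X.map g, y ∈ inorder (mapT g T) := by
    intro y hy
    rw [List.mem_map] at hy
    obtain ⟨x, hx, rfl⟩ := hy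
    rw [mapT_inorder]
    exact List.mem_map_of_mem (hX0 x hx)
  obtain ⟨B, hB1, hB2⟩ := low_bb (m := S.m) hE1 hT1 hX1 (by rw [List.length_map, hm])
  have hget : ∀ t, t < X.length → X.getD t 0 ∈ V ∧ (X.map g).getD t 0 = g (X.getD t 0) := by
    intro t ht'
    have h1 : t < (X.map g).length := by rwa [List.length_map]
    rw [List.getD_eq_getElem _ _ ht', List.getD_eq_getElem _ _ h1, List.getElem_map]
    exact ⟨hX _ (List.getElem_mem ht'), rfl⟩
  let f : ℕ → ℕ := fun s => (V.filter (fun v => g v ≤ s)).card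
  have hfm : Monotone f := by
    intro a b hab
    apply Finset.card_le_card
    intro v hv
    rw [Finset.mem_filter] at hv ⊢
    exact ⟨hv.1, hv.2.trans hab⟩
  have hf0 : f 0 = 0 := by
    simp only [f]
    rw [Finset.card_eq_zero, Finset.filter_eq_empty_iff]
    intro v _
    simp only [g]
    omega
  have hfn : f n = V.card := by
    simp only [f]
    rw [Finset.filter_true_of_mem]
    intro v hv
    exact hgn v (hV hv)
  have hfs : ∀ s, f (s + 1) ≤ f s + 1 := by
    intro s
    simp only [f]
    have h1 : V.filter (fun v => g v ≤ s + 1) ⊆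
        V.filter (fun v => g v ≤ s) ∪ V.filter (fun v => g v = s + 1) := by
      intro v hv
      rw [Finset.mem_union, Finset.mem_filter, Finset.mem_filter]
      rw [Finset.mem_filter] at hv
      by_cases h : g v ≤ s
      · exact Or.inl ⟨hv.1, h⟩
      · exact Or.inr ⟨hv.1, by omega⟩
    have h2 : (V.filter (fun v => g v = s + 1)).card ≤ 1 := by
      rw [Finset.card_le_one]
      intro v hv w hw
      rw [Finset.mem_filter] at hv hw
      rcases lt_trichotomy v w with h | h | h
      · have := (hgV v hv.1 w hw.1).2 h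
        omega
      · exact h
      · have := (hgV w hw.1 v hv.1).2 h
        omega
    have h3 := Finset.card_le_card h1
    have h4 := Finset.card_union_le (V.filter (fun v => g v ≤ s)) (V.filter (fun v => g v = s + 1))
    omega
  have hfg : ∀ x ∈ V, f (g x - 1) = rk V x ∧ f (g x) = rk V x + 1 := by
    intro x hx
    constructor
    · simp only [f, SplAll.rk]
      congr 1
      apply Finset.filter_congr
      intro v hv
      have := hgV v hv x hx
      rw [← this]
      have : 0 < g x := Nat.succ_pos _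
      omega
    · have h1 : V.filter (fun v => g v ≤ g x) = insert x (V.filter (fun u => u < x)) := by
        ext v
        rw [Finset.mem_filter, Finset.mem_insert, Finset.mem_filter]
        constructor
        · rintro ⟨h2, h3⟩
          by_cases e : v = x
          · exact Or.inl e
          · right
            refine ⟨h2, ?_⟩
            by_contra h4
            have := (hgV x hx v h2).2 (by omega)
            omega
        · rintro (rfl | ⟨h2, h3⟩)
          · exact ⟨hx, le_rfl⟩
          · exact ⟨h2, ((hgV v h2 x hx).2 h3).le⟩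
      simp only [f, SplAll.rk]
      rw [h1, Finset.card_insert_of_notMem (by simp)]
  obtain ⟨B', hB3, hB4⟩ := B.push (u := V.card) (X' := fun t => rk V (X.getD t 0) + 1)
    hfm hf0 hfn hfs (by
      intro t ht'
      obtain ⟨h1, h2⟩ := hget t (by omega)
      simp only [h2]
      obtain ⟨h3, h4⟩ := hfg _ h1
      refine ⟨hgn _ (hV h1), ?_, h4⟩
      rw [h3]
      rfl)
  obtain ⟨B2, hB5, hB6⟩ := B'.toBlk htop (fun t ht' => hSX t ht')
  exact ⟨B2, by rw [hB5, hB3, hB1], by rw [hB6]; exact hB4.trans hB2⟩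

end Pool.Agent.SplLow
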