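import Pool.Agent.SplLow.Defs

set_option autoImplicit false

/-!
# Subtrees, heights, blocks
-/

namespace Pool.Agent.SplLow

open BinaryTree Pool.Agent.MP_c42954_lc.Scan

/-! ## Module LA -/

theorem mem_node {a s : ℕ} {l r : BinaryTree ℕ} :
    s ∈ inorder (.node a l r) ↔ s ∈ inorder l ∨ s = a ∨ s ∈ inorder r := by
  simp [inorder]

theorem bst_node {a : ℕ} {l r : BinaryTree ℕ} :
    IsBST (.node a l r) ↔ IsBST l ∧ IsBST r ∧ (∀ s ∈ inorder l, s < a) ∧ ∀ s ∈ inorder r, a < s := by
  unfold IsBST
  rw [inorder, List.pairwise_append, List.pairwise_cons]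
  constructor
  · rintro ⟨h1, ⟨h2, h3⟩, h4⟩
    exact ⟨h1, h3, fun s hs => h4 s hs a List.mem_cons_self, h2⟩
  · rintro ⟨h1, h3, h4, h2⟩
    refine ⟨h1, ⟨h2, h3⟩, fun s hs b hb => ?_⟩
    rcases List.mem_cons.1 hb with rfl | hb
    · exact h4 s hs
    · exact (h4 s hs).trans (h2 b hb)

theorem Sb.trans {t u T : BinaryTree ℕ} (h : Sb t u) (h' : Sb u T) : Sb t T := by
  induction h' with
  | refl => exact h
  | left a r _ ih => exact Sb.left a r ih
  | right a l _ ih => exact Sb.right a l ih

theorem Sb.mem {t T : BinaryTree ℕ} (h : Sb t T) {s : ℕ} (hs : s ∈ inorder t) :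
    s ∈ inorder T := by
  induction h with
  | refl => exact hs
  | left a r _ ih => exact mem_node.2 (Or.inl ih)
  | right a l _ ih => exact mem_node.2 (Or.inr (Or.inr ih))

theorem Sb.bst {t T : BinaryTree ℕ} (h : Sb t T) (hT : IsBST T) : IsBST t := by
  induction h with
  | refl => exact hT
  | left a r _ ih => exact ih (bst_node.1 hT).1
  | right a l _ ih => exact ih (bst_node.1 hT).2.1

theorem Sb.height {t T : BinaryTree ℕ} (h : Sb t T) : t.height ≤ T.height := by
  induction h with
  | refl => exact le_rfl
  | left a r _ ih => simp only [BinaryTree.height]; omega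
  | right a l _ ih => simp only [BinaryTree.height]; omega

theorem Sb.numNodes {t T : BinaryTree ℕ} (h : Sb t T) : t.numNodes ≤ T.numNodes := by
  induction h with
  | refl => exact le_rfl
  | left a r _ ih => simp only [BinaryTree.numNodes]; omega
  | right a l _ ih => simp only [BinaryTree.numNodes]; omega

/-- A proper subtree has fewer nodes. -/
theorem Sb.eq_of_numNodes {t T : BinaryTree ℕ} (h : Sb t T) (hn : T.numNodes ≤ t.numNodes) :
    t = T := by
  cases h with
  | refl => rfl
  | left a r h =>
    have := h.numNodes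
    simp only [BinaryTree.numNodes] at hn
    omega
  | right a l h =>
    have := h.numNodes
    simp only [BinaryTree.numNodes] at hn
    omega

theorem Sb.avoid {t T : BinaryTree ℕ} (h : Sb t T) {x : ℕ} (hx : Av x T) : Av x t :=
  ⟨fun h' => hx.1 (h.mem h'), fun h' => hx.2 (h.mem h')⟩

/-- Every label is the root of a subtree. -/
theorem exists_sb {T : BinaryTree ℕ} {s : ℕ} (hs : s ∈ inorder T) :
    ∃ l r, Sb (.node s l r) T := by
  induction T with
  | nil => simp [inorder] at hs
  | node a l r ihl ihr =>
    rcases mem_node.1 hs with h | rfl | h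
    · obtain ⟨l', r', h'⟩ := ihl h
      exact ⟨l', r', Sb.left a r h'⟩
    · exact ⟨l, r, Sb.refl⟩
    · obtain ⟨l', r', h'⟩ := ihr h
      exact ⟨l', r', Sb.right a l h'⟩

theorem root_mem (s : ℕ) (l r : BinaryTree ℕ) : s ∈ inorder (.node s l r) :=
  mem_node.2 (Or.inr (Or.inl rfl))

/-- The subtree with root `s` is unique. -/
theorem Sb.unique {T : BinaryTree ℕ} (hT : IsBST T) {s : ℕ} {l r l' r' : BinaryTree ℕ}
    (h : Sb (.node s l r) T) (h' : Sb (.node s l' r') T) : l = l' ∧ r = r' := by
  induction T with
  | nil => cases h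
  | node a A B ihA ihB =>
    obtain ⟨hA, hB, h1, h2⟩ := bst_node.1 hT
    cases h with
    | refl =>
      cases h' with
      | refl => exact ⟨rfl, rfl⟩
      | left a r h' => exact absurd (h1 s (h'.mem (root_mem _ _ _))) (lt_irrefl _)
      | right a l h' => exact absurd (h2 s (h'.mem (root_mem _ _ _))) (lt_irrefl _)
    | left a r h =>
      cases h' with
      | refl => exact absurd (h1 s (h.mem (root_mem _ _ _))) (lt_irrefl _)
      | left a r h' => exact ihA hA h h'
      | right a l h' =>
        exact absurd ((h1 s (h.mem (root_mem _ _ _))).trans (h2 s (h'.mem (root_mem _ _ _))))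
          (lt_irrefl _)
    | right a l h =>
      cases h' with
      | refl => exact absurd (h2 s (h.mem (root_mem _ _ _))) (lt_irrefl _)
      | left a r h' =>
        exact absurd ((h1 s (h'.mem (root_mem _ _ _))).trans (h2 s (h.mem (root_mem _ _ _))))
          (lt_irrefl _)
      | right a l h' => exact ihB hB h h'

/-- Two subtrees with a common label are nested. -/
theorem Sb.nested {T t t' : BinaryTree ℕ} (hT : IsBST T) (h : Sb t T) (h' : Sb t' T) {s : ℕ}
    (hs : s ∈ inorder t) (hs' : s ∈ inorder t') : Sb t t' ∨ Sb t' t := by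
  induction T with
  | nil =>
    cases h
    simp [inorder] at hs
  | node a A B ihA ihB =>
    obtain ⟨hA, hB, h1, h2⟩ := bst_node.1 hT
    cases h with
    | refl => exact Or.inr h'
    | left a r h =>
      cases h' with
      | refl => exact Or.inl (Sb.left _ _ h)
      | left a r h' => exact ihA hA h h'
      | right a l h' =>
        exact absurd ((h1 s (h.mem hs)).trans (h2 s (h'.mem hs'))) (lt_irrefl _)
    | right a l h =>
      cases h' with
      | refl => exact Or.inl (Sb.right _ _ h)
      | left a r h' =>
        exact absurd ((h1 s (h'.mem hs')).trans (h2 s (h.mem hs))) (lt_irrefl _)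
      | right a l h' => exact ihB hB h h'

/-! ## Module LB -/

private theorem LB_zero {s : ℕ} : ∀ {T : BinaryTree ℕ}, s ∉ inorder T → ht s T = 0
  | .nil, _ => rfl
  | .node a l r, h => by
    rw [mem_node, not_or, not_or] at h
    rw [ht, if_neg h.2.1, LB_zero h.1, LB_zero h.2.2]
    rfl

/-- `ht s T` is the height of the subtree with root `s`. -/
theorem ht_eq {T : BinaryTree ℕ} (hT : IsBST T) {s : ℕ} {l r : BinaryTree ℕ}
    (h : Sb (.node s l r) T) : ht s T = (BinaryTree.node s l r).height := by
  induction T with
  | nil => cases h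
  | node a A B ihA ihB =>
    obtain ⟨hA, hB, h1, h2⟩ := bst_node.1 hT
    cases h with
    | refl => rw [ht, if_pos rfl]
    | left a r h =>
      have hs := h.mem (root_mem _ _ _)
      have h3 := h1 s hs
      rw [ht, if_neg (by omega), ihA hA h, LB_zero (fun h' => by have := h2 s h'; omega)]
      simp
    | right a l h =>
      have hs := h.mem (root_mem _ _ _)
      have h3 := h2 s hs
      rw [ht, if_neg (by omega), ihB hB h, LB_zero (fun h' => by have := h1 s h'; omega)]
      simp

theorem ht_le (s : ℕ) (T : BinaryTree ℕ) : ht s T ≤ T.height := by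
  induction T with
  | nil => exact le_rfl
  | node a l r ihl ihr =>
    rw [ht]
    split_ifs with h
    · exact le_rfl
    · simp only [BinaryTree.height]
      omega

/-- Proper descendants are lower. -/
theorem ht_lt {T : BinaryTree ℕ} (hT : IsBST T) {c s : ℕ} {l r : BinaryTree ℕ}
    (h : Sb (.node c l r) T) (hs : s ∈ inorder (.node c l r)) (hne : s ≠ c) :
    ht s T < ht c T := by
  rw [ht_eq hT h]
  rcases mem_node.1 hs with h1 | h1 | h1
  · obtain ⟨l', r', h2⟩ := exists_sb h1
    rw [ht_eq hT ((Sb.left c r h2).trans h)]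
    have := h2.height
    simp only [BinaryTree.height] at this ⊢
    omega
  · exact absurd h1 hne
  · obtain ⟨l', r', h2⟩ := exists_sb h1
    rw [ht_eq hT ((Sb.right c l h2).trans h)]
    have := h2.height
    simp only [BinaryTree.height] at this ⊢
    omega

/-- The lowest common ancestor of two labels. -/
theorem lca {T : BinaryTree ℕ} (hT : IsBST T) {s r : ℕ} (hs : s ∈ inorder T) (hr : r ∈ inorder T)
    (hsr : s < r) : ∃ c l r', Sb (.node c l r') T ∧ s ≤ c ∧ c ≤ r ∧
      s ∈ inorder (.node c l r') ∧ r ∈ inorder (.node c l r') := by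
  induction T with
  | nil => simp [inorder] at hs
  | node a A B ihA ihB =>
    obtain ⟨hA, hB, h1, h2⟩ := bst_node.1 hT
    by_cases h3 : r < a
    · have h4 : s ∈ inorder A := by
        rcases mem_node.1 hs with h | h | h
        · exact h
        · omega
        · have := h2 s h
          omega
      have h5 : r ∈ inorder A := by
        rcases mem_node.1 hr with h | h | h
        · exact h
        · omega
        · have := h2 r h
          omega
      obtain ⟨c, l, r', g1, g2⟩ := ihA hA h4 h5
      exact ⟨c, l, r', Sb.left _ _ g1, g2⟩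
    · by_cases h4 : a < s
      · have h5 : s ∈ inorder B := by
          rcases mem_node.1 hs with h | h | h
          · have := h1 s h
            omega
          · omega
          · exact h
        have h6 : r ∈ inorder B := by
          rcases mem_node.1 hr with h | h | h
          · have := h1 r h
            omega
          · omega
          · exact h
        obtain ⟨c, l, r', g1, g2⟩ := ihB hB h5 h6
        exact ⟨c, l, r', Sb.right _ _ g1, g2⟩
      · exact ⟨a, A, B, Sb.refl, by omega, by omega, hs, hr⟩

theorem blk_nil {s : ℕ} {T : BinaryTree ℕ} (hs : s ∉ inorder T) : blk s T = [] := by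
  induction T with
  | nil => rfl
  | node a l r ihl ihr =>
    rw [mem_node, not_or, not_or] at hs
    rw [blk, if_neg hs.2.1, ihl hs.1, ihr hs.2.2]
    rfl

/-- `blk s T` is the list of labels of the subtree with root `s`. -/
theorem blk_eq {T : BinaryTree ℕ} (hT : IsBST T) {s : ℕ} {l r : BinaryTree ℕ}
    (h : Sb (.node s l r) T) : blk s T = inorder (.node s l r) := by
  induction T with
  | nil => cases h
  | node a A B ihA ihB =>
    obtain ⟨hA, hB, h1, h2⟩ := bst_node.1 hT
    cases h with
    | refl => rw [blk, if_pos rfl]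
    | left a r h =>
      have hs := h.mem (root_mem _ _ _)
      have h3 := h1 s hs
      rw [blk, if_neg (by omega), ihA hA h, blk_nil (fun h' => by have := h2 s h'; omega)]
      simp
    | right a l h =>
      have hs := h.mem (root_mem _ _ _)
      have h3 := h2 s hs
      rw [blk, if_neg (by omega), ihB hB h, blk_nil (fun h' => by have := h1 s h'; omega)]
      simp

/-- In a subtree the block is the same. -/
theorem blk_sb {T t : BinaryTree ℕ} (hT : IsBST T) (h : Sb t T) {s : ℕ} (hs : s ∈ inorder t) :
    blk s T = blk s t := by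
  obtain ⟨l, r, h1⟩ := exists_sb hs
  rw [blk_eq hT (h1.trans h), blk_eq (h.bst hT) h1]

end Pool.Agent.SplLow
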